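import Pool.Agent.R666.Sq.PieceP1

/-!
# Piece P2 for MP_6a062b_co: the number of standard Young tableaux of a straight shape
-/

namespace Sq

open Finset

namespace P2

open Polynomial

theorem Vd_eq_det {k : ℕ} (x : Fin k → ℚ) :
    Vd x = (Matrix.of fun i j : Fin k => (ascPochhammer ℚ (j : ℕ)).eval (-x i)).det := by
  rw [← Matrix.det_eval_matrixOfPolynomials_eq_det_vandermonde (fun i => -x i)
    (fun j : Fin k => ascPochhammer ℚ (j : ℕ))
    (fun j => ascPochhammer_natDegree _ _) (fun j => monic_ascPochhammer ℚ (j : ℕ)),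
    Matrix.det_vandermonde]
  unfold Vd
  apply Finset.prod_congr rfl
  intro i _
  apply Finset.prod_congr rfl
  intro j _
  ring

theorem det_sum {k : ℕ} (A : Matrix (Fin k) (Fin k) ℚ) (x c : Fin k → ℚ) :
    ∑ i, (A.updateRow i (fun j => (x i - c j) * A i j)).det
      = ((∑ i, x i) - ∑ j, c j) * A.det := by
  simp only [Matrix.det_apply']
  rw [Finset.sum_comm, Finset.mul_sum]
  apply Finset.sum_congr rfl
  intro σ _
  have h1 : ∀ i, ∏ l, (A.updateRow i (fun j => (x i - c j) * A i j)) (σ l) l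
      = (x i - c (σ.symm i)) * ∏ l, A (σ l) l := by
    intro i
    have h2 : ∀ l, (A.updateRow i (fun j => (x i - c j) * A i j)) (σ l) l
        = (if l = σ.symm i then (x i - c l) else 1) * A (σ l) l := by
      intro l
      rw [Matrix.updateRow_apply]
      by_cases h : σ l = i
      · rw [if_pos h, if_pos (by rw [← h]; simp), h]
      · rw [if_neg h, if_neg, one_mul]
        rintro rfl
        exact h (by simp)
    simp only [h2]
    rw [Finset.prod_mul_distrib, Finset.prod_ite_eq']
    simp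
  simp only [h1]
  rw [← Finset.mul_sum, ← Finset.sum_mul, Finset.sum_sub_distrib,
    Equiv.sum_comp σ.symm c]
  ring

theorem sum_id (k : ℕ) : ∑ j : Fin k, ((j : ℕ) : ℚ) = (k.choose 2 : ℚ) := by
  rw [Fin.sum_univ_eq_sum_range (fun j => (j : ℚ)) k]
  induction k with
  | zero => simp
  | succ k ih =>
    rw [Finset.sum_range_succ, ih, Nat.choose_succ_succ' k 1]
    push_cast
    simp
    ring

theorem term_id {k : ℕ} (x : Fin k → ℚ) (i : Fin k) :
    x i * Vd (Function.update x i (x i - 1)) =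
      (Matrix.updateRow (Matrix.of fun i j : Fin k => (ascPochhammer ℚ (j : ℕ)).eval (-x i)) i
        (fun j => (x i - ((j : ℕ) : ℚ)) *
          (Matrix.of fun i j : Fin k => (ascPochhammer ℚ (j : ℕ)).eval (-x i)) i j)).det := by
  have h1 : (Matrix.of fun i' j : Fin k =>
        (ascPochhammer ℚ (j : ℕ)).eval (-(Function.update x i (x i - 1)) i')) =
      Matrix.updateRow (Matrix.of fun i j : Fin k => (ascPochhammer ℚ (j : ℕ)).eval (-x i)) i
        (fun j => (ascPochhammer ℚ (j : ℕ)).eval (-x i + 1)) := by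
    ext a b
    rw [Matrix.updateRow_apply]
    by_cases h : a = i
    · subst h
      have : -(x a - 1) = -x a + 1 := by ring
      simp [this]
    · simp [h]
  rw [Vd_eq_det, h1, ← Matrix.det_updateRow_smul]
  congr 2
  funext j
  have h2 := congrArg (eval (-x i)) (ascPochhammer_succ_left ℚ (j : ℕ))
  rw [ascPochhammer_succ_eval, eval_mul, eval_X, eval_comp, eval_add, eval_X, eval_one] at h2
  rw [Pi.smul_apply, smul_eq_mul, Matrix.of_apply]
  linear_combination h2

end P2

open P2 in
theorem Vd_identity {k : ℕ} (x : Fin k → ℚ) :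
    ∑ i, x i * Vd (Function.update x i (x i - 1)) = ((∑ i, x i) - (k.choose 2 : ℚ)) * Vd x := by
  rw [← sum_id k, Vd_eq_det x, ← det_sum _ x (fun j => ((j : ℕ) : ℚ))]
  apply Finset.sum_congr rfl
  intro i _
  exact term_id x i

namespace P2

theorem Vd_base (k : ℕ) : Vd (fun i : Fin k => ((k - 1 - (i : ℕ) : ℕ) : ℚ)) =
    ∏ i : Fin k, ((k - 1 - (i : ℕ)).factorial : ℚ) := by
  induction k with
  | zero => simp [Vd]
  | succ k ih =>
    unfold Vd at ih ⊢
    rw [Fin.prod_univ_succ, Fin.prod_univ_succ (f := fun i : Fin (k + 1) =>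
      ((k + 1 - 1 - (i : ℕ)).factorial : ℚ)), Fin.prod_Ioi_zero]
    simp only [Fin.prod_Ioi_succ]
    have h1 : ∏ i : Fin k, ∏ j ∈ Ioi i, (((k + 1 - 1 - (i.succ : ℕ) : ℕ) : ℚ) -
        ((k + 1 - 1 - (j.succ : ℕ) : ℕ) : ℚ)) =
        ∏ i : Fin k, ((k + 1 - 1 - (i.succ : ℕ)).factorial : ℚ) := by
      have e : ∀ i : Fin k, k + 1 - 1 - (i.succ : ℕ) = k - 1 - (i : ℕ) := by
        intro i
        rw [Fin.val_succ]
        omega
      simp only [e]
      exact ih
    rw [h1]
    congr 1
    have h2 : ∀ j : Fin k, ((k + 1 - 1 - ((0 : Fin (k + 1)) : ℕ) : ℕ) : ℚ) -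
        ((k + 1 - 1 - (j.succ : ℕ) : ℕ) : ℚ) = (((j : ℕ) + 1 : ℕ) : ℚ) := by
      intro j
      rw [Fin.val_succ, Fin.val_zero, sub_eq_iff_eq_add, ← Nat.cast_add]
      congr 1
      have := j.2
      omega
    rw [Finset.prod_congr rfl (fun j _ => h2 j),
      Fin.prod_univ_eq_prod_range (fun j => ((j + 1 : ℕ) : ℚ)) k, ← Nat.cast_prod,
      Finset.prod_range_add_one_eq_factorial]
    simp

theorem mem_Y {k : ℕ} {lam : Fin k → ℕ} {r c : ℕ} :
    (r, c) ∈ Y k lam ↔ ∃ i : Fin k, r = (i : ℕ) + 1 ∧ 1 ≤ c ∧ c ≤ lam i := by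
  simp only [Y, Finset.mem_biUnion, Finset.mem_univ, true_and, Finset.mem_image, Finset.mem_Icc,
    Prod.mk.injEq]
  constructor
  · rintro ⟨i, a, ⟨h1, h2⟩, h3, h4⟩
    exact ⟨i, h3.symm, h4 ▸ h1, h4 ▸ h2⟩
  · rintro ⟨i, h1, h2, h3⟩
    exact ⟨i, c, ⟨h2, h3⟩, h1.symm, rfl⟩

/-- corners of a shape -/
def corner {k : ℕ} (lam : Fin k → ℕ) (i : Fin k) : Prop := 0 < lam i ∧ ∀ j, i < j → lam j < lam i

theorem corner_mem {k : ℕ} (lam : Fin k → ℕ) (i : Fin k) (hi : corner lam i) :
    ((i : ℕ) + 1, lam i) ∈ Y k lam := mem_Y.2 ⟨i, rfl, hi.1, le_rfl⟩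

theorem corner_max {k : ℕ} (lam : Fin k → ℕ) (i : Fin k) (hi : corner lam i) :
    ∀ y ∈ Y k lam, ((i : ℕ) + 1, lam i) ≤ y → y = ((i : ℕ) + 1, lam i) := by
  rintro ⟨r, c⟩ hy hle
  obtain ⟨j, rfl, h1, h2⟩ := mem_Y.1 hy
  rw [Prod.le_def] at hle
  simp only at hle
  have h3 : i ≤ j := by
    rw [Fin.le_def]; omega
  rcases h3.eq_or_lt with rfl | h4
  · ext
    · rfl
    · simp only; omega
  · have := hi.2 j h4
    omega

theorem max_corner {k : ℕ} (lam : Fin k → ℕ) (x : ℕ × ℕ) (hx : x ∈ Y k lam)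
    (hm : ∀ y ∈ Y k lam, x ≤ y → y = x) : ∃ i, corner lam i ∧ ((i : ℕ) + 1, lam i) = x := by
  obtain ⟨r, c⟩ := x
  obtain ⟨i, rfl, h1, h2⟩ := mem_Y.1 hx
  have hc : c = lam i := by
    have h3 := hm ((i : ℕ) + 1, lam i) (mem_Y.2 ⟨i, rfl, h1.trans h2, le_rfl⟩) ⟨le_rfl, h2⟩
    have := congrArg Prod.snd h3
    simp only at this
    exact this.symm
  subst hc
  refine ⟨i, ⟨by omega, ?_⟩, rfl⟩
  intro j hj
  by_contra hcon
  rw [not_lt] at hcon
  have h3 := hm ((j : ℕ) + 1, lam i) (mem_Y.2 ⟨j, rfl, h1, hcon⟩)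
    ⟨by simp only; rw [Fin.lt_def] at hj; omega, le_rfl⟩
  have := congrArg Prod.fst h3
  simp only at this
  rw [Fin.lt_def] at hj
  omega

theorem erase_corner {k : ℕ} (lam : Fin k → ℕ) (i : Fin k) (hi : corner lam i) :
    (Y k lam).erase ((i : ℕ) + 1, lam i) = Y k (Function.update lam i (lam i - 1)) := by
  ext ⟨r, c⟩
  rw [Finset.mem_erase, mem_Y, mem_Y, ne_eq, Prod.mk.injEq]
  constructor
  · rintro ⟨h1, j, rfl, h2, h3⟩
    refine ⟨j, rfl, h2, ?_⟩
    by_cases hj : j = i
    · subst hj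
      rw [Function.update_self]
      have : c ≠ lam j := fun h => h1 ⟨rfl, h⟩
      omega
    · rw [Function.update_of_ne hj]
      exact h3
  · rintro ⟨j, rfl, h2, h3⟩
    by_cases hj : j = i
    · subst hj
      rw [Function.update_self] at h3
      have := hi.1
      exact ⟨fun h => by omega, j, rfl, h2, by omega⟩
    · rw [Function.update_of_ne hj] at h3
      refine ⟨fun h => hj ?_, j, rfl, h2, h3⟩
      ext
      omega

open Classical in
theorem e_Y_step {k : ℕ} (lam : Fin k → ℕ) (hne : (Y k lam).Nonempty) :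
    e (Y k lam) = ∑ i with corner lam i, e (Y k (Function.update lam i (lam i - 1))) := by
  rw [e_max _ hne]
  symm
  apply Finset.sum_bij (fun (i : Fin k) _ => ((i : ℕ) + 1, lam i))
  · intro i hi
    rw [Finset.mem_filter] at hi ⊢
    exact ⟨corner_mem lam i hi.2, corner_max lam i hi.2⟩
  · intro i _ j _ h
    rw [Prod.mk.injEq] at h
    ext
    omega
  · intro x hx
    rw [Finset.mem_filter] at hx
    obtain ⟨i, h1, h2⟩ := max_corner lam x hx.1 hx.2
    exact ⟨i, Finset.mem_filter.2 ⟨Finset.mem_univ _, h1⟩, h2⟩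
  · intro i hi
    rw [Finset.mem_filter] at hi
    rw [erase_corner lam i hi.2]

theorem antitone_update {k : ℕ} (lam : Fin k → ℕ) (h : Antitone lam) (i : Fin k)
    (hi : corner lam i) : Antitone (Function.update lam i (lam i - 1)) := by
  intro a b hab
  by_cases ha : a = i
  · subst ha
    by_cases hb : b = a
    · subst hb
      exact le_rfl
    · rw [Function.update_self, Function.update_of_ne hb]
      have := hi.2 b (lt_of_le_of_ne hab (Ne.symm hb))
      omega
  · rw [Function.update_of_ne ha]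
    by_cases hb : b = i
    · subst hb
      rw [Function.update_self]
      have := h hab
      omega
    · rw [Function.update_of_ne hb]
      exact h hab

/-- shifted parts -/
def L {k : ℕ} (lam : Fin k → ℕ) (i : Fin k) : ℚ := (lam i : ℚ) + (k - 1 - (i : ℕ) : ℕ)

/-- product of the factorials -/
def PF {k : ℕ} (lam : Fin k → ℕ) : ℚ := ∏ i, ((lam i + (k - 1 - (i : ℕ))).factorial : ℚ)

theorem L_update {k : ℕ} (lam : Fin k → ℕ) (i : Fin k) (hi : 0 < lam i) :
    L (Function.update lam i (lam i - 1)) = Function.update (L lam) i (L lam i - 1) := by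
  funext j
  by_cases hj : j = i
  · subst hj
    rw [Function.update_self]
    unfold L
    rw [Function.update_self, Nat.cast_sub hi]
    push_cast
    ring
  · rw [Function.update_of_ne hj]
    unfold L
    rw [Function.update_of_ne hj]

theorem PF_update {k : ℕ} (lam : Fin k → ℕ) (i : Fin k) (hi : 0 < lam i) :
    PF lam = L lam i * PF (Function.update lam i (lam i - 1)) := by
  unfold PF
  rw [← Finset.mul_prod_erase _ _ (Finset.mem_univ i),
    ← Finset.mul_prod_erase (a := i) _ (fun j => (((Function.update lam i (lam i - 1)) j +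
      (k - 1 - (j : ℕ))).factorial : ℚ)) (Finset.mem_univ i), ← mul_assoc]
  congr 1
  · rw [Function.update_self]
    unfold L
    obtain ⟨a, ha⟩ : ∃ a, lam i = a + 1 := ⟨lam i - 1, by omega⟩
    rw [ha]
    have e1 : a + 1 + (k - 1 - (i : ℕ)) = (a + (k - 1 - (i : ℕ))) + 1 := by omega
    rw [e1, Nat.factorial_succ, Nat.add_sub_cancel]
    push_cast
    ring
  · apply Finset.prod_congr rfl
    intro j hj
    rw [Function.update_of_ne (Finset.ne_of_mem_erase hj)]

theorem PF_pos {k : ℕ} (lam : Fin k → ℕ) : 0 < PF lam :=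
  Finset.prod_pos fun _ _ => by exact_mod_cast Nat.factorial_pos _

theorem sum_L {k : ℕ} (lam : Fin k → ℕ) : ∑ i, L lam i - (k.choose 2 : ℚ) = ((∑ i, lam i : ℕ) : ℚ) := by
  unfold L
  rw [Finset.sum_add_distrib, ← sum_id k]
  have : ∑ i : Fin k, ((k - 1 - (i : ℕ) : ℕ) : ℚ) = ∑ j : Fin k, ((j : ℕ) : ℚ) := by
    rw [Fin.sum_univ_eq_sum_range (fun j => ((k - 1 - j : ℕ) : ℚ)) k,
      Fin.sum_univ_eq_sum_range (fun j => (j : ℚ)) k]
    exact Finset.sum_range_reflect (fun j => (j : ℚ)) k
  rw [this]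
  push_cast
  ring

theorem vanish {k : ℕ} (lam : Fin k → ℕ) (h : Antitone lam) (i : Fin k) (hi : ¬ corner lam i) :
    L lam i * Vd (Function.update (L lam) i (L lam i - 1)) = 0 := by
  by_cases hlast : (i : ℕ) + 1 < k
  · -- `lam (i+1) = lam i`
    have hij : i < ⟨(i : ℕ) + 1, hlast⟩ := by
      rw [Fin.lt_def]
      exact Nat.lt_succ_self _
    have heq : lam ⟨(i : ℕ) + 1, hlast⟩ = lam i := by
      apply le_antisymm (h hij.le)
      by_contra hcon
      rw [not_le] at hcon
      apply hi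
      refine ⟨by omega, ?_⟩
      intro j hj
      have : (⟨(i : ℕ) + 1, hlast⟩ : Fin k) ≤ j := by
        rw [Fin.le_def]
        rw [Fin.lt_def] at hj
        exact hj
      exact lt_of_le_of_lt (h this) hcon
    have hV : Vd (Function.update (L lam) i (L lam i - 1)) = 0 := by
      unfold Vd
      apply Finset.prod_eq_zero (Finset.mem_univ i)
      apply Finset.prod_eq_zero (Finset.mem_Ioi.2 hij)
      rw [Function.update_self, Function.update_of_ne (ne_of_gt hij)]
      unfold L
      rw [heq]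
      have : k - 1 - (i : ℕ) = (k - 1 - ((i : ℕ) + 1)) + 1 := by omega
      rw [this]
      push_cast
      ring
    rw [hV, mul_zero]
  · have h0 : lam i = 0 := by
      by_contra hcon
      apply hi
      refine ⟨Nat.pos_of_ne_zero hcon, ?_⟩
      intro j hj
      exfalso
      rw [Fin.lt_def] at hj
      have := j.2
      omega
    have : L lam i = 0 := by
      unfold L
      rw [h0]
      have : k - 1 - (i : ℕ) = 0 := by omega
      rw [this]
      simp
    rw [this, zero_mul]

theorem main (k : ℕ) : ∀ (s : ℕ) (lam : Fin k → ℕ), Antitone lam → ∑ i, lam i = s →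
    (e (Y k lam) : ℚ) = (s.factorial : ℚ) * Vd (L lam) / PF lam := by
  classical
  intro s
  induction s with
  | zero =>
    intro lam _ hs
    have h0 : ∀ i, lam i = 0 := by
      intro i
      have := (Finset.sum_eq_zero_iff.1 hs) i (Finset.mem_univ i)
      exact this
    have hY : Y k lam = ∅ := by
      rw [Finset.eq_empty_iff_forall_notMem]
      rintro ⟨r, c⟩ hc
      obtain ⟨i, -, h1, h2⟩ := mem_Y.1 hc
      rw [h0 i] at h2
      omega
    have hL : L lam = fun i : Fin k => ((k - 1 - (i : ℕ) : ℕ) : ℚ) := by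
      funext i
      unfold L
      rw [h0 i]
      simp
    have hP : PF lam = ∏ i : Fin k, ((k - 1 - (i : ℕ)).factorial : ℚ) := by
      unfold PF
      apply Finset.prod_congr rfl
      intro i _
      rw [h0 i, zero_add]
    rw [hY, e_empty, hL, Vd_base, ← hP, Nat.factorial_zero, Nat.cast_one, one_mul,
      div_self (PF_pos lam).ne']
  | succ s ih =>
    intro lam h hs
    have hne : (Y k lam).Nonempty := by
      have : ∃ i ∈ Finset.univ, lam i ≠ 0 := by
        apply Finset.exists_ne_zero_of_sum_ne_zero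
        rw [hs]
        exact Nat.succ_ne_zero s
      obtain ⟨i, -, hi⟩ := this
      exact ⟨((i : ℕ) + 1, 1), mem_Y.2 ⟨i, rfl, le_rfl, Nat.one_le_iff_ne_zero.2 hi⟩⟩
    rw [e_Y_step lam hne]
    push_cast
    have h1 : ∀ i ∈ Finset.univ.filter (fun i => corner lam i),
        (e (Y k (Function.update lam i (lam i - 1))) : ℚ) =
        (s.factorial : ℚ) / PF lam * (L lam i * Vd (Function.update (L lam) i (L lam i - 1))) := by
      intro i hi
      rw [Finset.mem_filter] at hi
      have hsum : ∑ j, (Function.update lam i (lam i - 1)) j = s := by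
        rw [Finset.sum_update_of_mem (Finset.mem_univ i)]
        have h2 := Finset.add_sum_erase Finset.univ lam (Finset.mem_univ i)
        rw [← Finset.sdiff_singleton_eq_erase] at h2
        have := hi.2.1
        omega
      rw [ih _ (antitone_update lam h i hi.2) hsum, L_update lam i hi.2.1,
        PF_update lam i hi.2.1]
      have h3 := PF_pos (Function.update lam i (lam i - 1))
      have h4 : L lam i ≠ 0 := by
        intro h5
        have h6 := PF_update lam i hi.2.1
        rw [h5, zero_mul] at h6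
        exact (PF_pos lam).ne' h6
      field_simp
    rw [Finset.sum_congr rfl h1, ← Finset.mul_sum,
      Finset.sum_filter_of_ne (fun i _ h2 => by
        by_contra hcon
        exact h2 (vanish lam h i hcon)),
      Vd_identity, sum_L, hs, Nat.factorial_succ]
    push_cast
    ring

end P2

theorem e_Y (k : ℕ) (lam : Fin k → ℕ) (h : Antitone lam) :
    (e (Y k lam) : ℚ) = ((∑ i, lam i).factorial : ℚ) *
      (Vd fun i => (lam i : ℚ) + (k - 1 - (i : ℕ) : ℕ)) /
      ∏ i, ((lam i + (k - 1 - (i : ℕ))).factorial : ℚ) :=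
  P2.main k _ lam h rfl

end Sq
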