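import Pool.Agent.R666.Sq.Defs

/-!
# Piece P3: splitting the truncated square at the cell `(2, m)`
-/

namespace Sq

open Finset

/-- Statement of `e_split` (piece P1). -/
def P3.SplitStm : Prop := ∀ (S : Finset (ℕ × ℕ)) (p : ℕ × ℕ), p ∈ S →
    e S = ∑ I ∈ S.powerset.filter (fun I => p ∉ I ∧ (∀ a ∈ I, ∀ b ∈ S \ I, ¬ b ≤ a) ∧
      ∀ b ∈ (S \ I).erase p, ¬ b ≤ p), e I * e ((S \ I).erase p)

/-- Statement of `e_dual` (piece P1). -/
def P3.DualStm : Prop := ∀ (S : Finset (ℕ × ℕ)) (a b : ℕ), (∀ x ∈ S, x.1 ≤ a ∧ x.2 ≤ b) →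
    e (S.image fun x => (a - x.1, b - x.2)) = e S

namespace P3

lemma mem_D (n a b : ℕ) : (a, b) ∈ D (n + 2) ↔
    (1 ≤ a ∧ a ≤ n + 2 ∧ 1 ≤ b ∧ b ≤ n + 2 ∧ (a = 1 → b ≤ n)) := by
  unfold D
  simp only [mem_sdiff, mem_product, mem_Icc, mem_insert, mem_singleton, Prod.mk.injEq]
  omega

lemma mem_Y (k : ℕ) (lam : Fin k → ℕ) (a b : ℕ) : (a, b) ∈ Y k lam ↔
    ∃ i : Fin k, a = i + 1 ∧ 1 ≤ b ∧ b ≤ lam i := by
  unfold Y
  simp only [mem_biUnion, mem_univ, true_and, mem_image, mem_Icc, Prod.mk.injEq]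
  constructor
  · rintro ⟨i, j, ⟨h1, h2⟩, h3, h4⟩
    exact ⟨i, h3.symm, by omega, by omega⟩
  · rintro ⟨i, h1, h2, h3⟩
    exact ⟨i, b, ⟨h2, h3⟩, h1.symm, rfl⟩

lemma mem_YA {m : ℕ} (lam : Fin m → Fin m) (a b : ℕ) : (a, b) ∈ Y (m + 2) (lamA lam) ↔
    1 ≤ b ∧ ((a = 1 ∧ b ≤ m) ∨ (a = 2 ∧ b ≤ m - 1) ∨ ∃ i : Fin m, a = i + 3 ∧ b ≤ lam i) := by
  rw [mem_Y]
  constructor
  · rintro ⟨i, h1, h2, h3⟩
    refine ⟨h2, ?_⟩
    refine Fin.cases ?_ (fun i => ?_) i h1 h3
    · intro h1 h3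
      left
      simp only [Fin.val_zero] at h1
      exact ⟨by omega, by simpa [lamA] using h3⟩
    · refine Fin.cases ?_ (fun i => ?_) i
      · intro h1 h3
        right; left
        simp only [Fin.val_succ, Fin.val_zero] at h1
        exact ⟨by omega, by simpa [lamA] using h3⟩
      · intro h1 h3
        right; right
        simp only [Fin.val_succ] at h1
        exact ⟨i, by omega, by simpa [lamA] using h3⟩
  · rintro ⟨h2, ⟨h1, h3⟩ | ⟨h1, h3⟩ | ⟨i, h1, h3⟩⟩
    · exact ⟨0, by simp [h1], h2, by simpa [lamA] using h3⟩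
    · exact ⟨Fin.succ 0, by simp [h1], h2, by simpa [lamA] using h3⟩
    · exact ⟨Fin.succ (Fin.succ i), by simp [h1], h2, by simpa [lamA] using h3⟩

lemma mem_YB {m : ℕ} (lam : Fin m → Fin m) (a b : ℕ) : (a, b) ∈ Y (m + 1) (lamB lam) ↔
    1 ≤ b ∧ ((a = m + 1 ∧ b ≤ 2) ∨ ∃ r : Fin m, a = r + 1 ∧ b ≤ m + 2 - lam (Fin.rev r)) := by
  rw [mem_Y]
  constructor
  · rintro ⟨i, h1, h2, h3⟩
    refine ⟨h2, ?_⟩
    refine Fin.lastCases ?_ (fun i => ?_) i h1 h3
    · intro h1 h3
      left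
      simp only [Fin.val_last] at h1
      exact ⟨by omega, by simpa [lamB] using h3⟩
    · intro h1 h3
      right
      simp only [Fin.val_castSucc] at h1
      exact ⟨i, h1, by simpa [lamB] using h3⟩
  · rintro ⟨h2, ⟨h1, h3⟩ | ⟨r, h1, h3⟩⟩
    · exact ⟨Fin.last m, by simp [h1], h2, by simpa [lamB] using h3⟩
    · exact ⟨Fin.castSucc r, by simp [h1], h2, by simpa [lamB] using h3⟩

/-- a down-closed set of positive numbers is an initial interval -/
lemma down_eq (s : Finset ℕ) (h1 : ∀ j ∈ s, 1 ≤ j) (h : ∀ j ∈ s, ∀ i, 1 ≤ i → i ≤ j → i ∈ s) :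
    ∀ j, j ∈ s ↔ 1 ≤ j ∧ j ≤ s.card := by
  intro j
  constructor
  · intro hj
    refine ⟨h1 j hj, ?_⟩
    have : Icc 1 j ⊆ s := by
      intro i hi
      rw [mem_Icc] at hi
      exact h j hj i hi.1 hi.2
    have := card_le_card this
    simpa using this
  · rintro ⟨hj1, hj2⟩
    by_contra hj
    have : s ⊆ Icc 1 (j - 1) := by
      intro i hi
      rw [mem_Icc]
      refine ⟨h1 i hi, ?_⟩
      by_contra hlt
      exact hj (h i hi j hj1 (by omega))
    have := card_le_card this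
    simp at this
    omega

lemma dual_set {m : ℕ} (hm : 1 ≤ m) (lam : Fin m → Fin m) :
    ((D (m + 2) \ Y (m + 2) (lamA lam)).erase (2, m)).image
      (fun x => (m + 3 - x.1, m + 3 - x.2)) = Y (m + 1) (lamB lam) := by
  ext ⟨a, b⟩
  rw [mem_YB, mem_image]
  constructor
  · rintro ⟨⟨c, d⟩, hcd, heq⟩
    simp only [mem_erase, ne_eq, mem_sdiff, mem_D, mem_YA, Prod.mk.injEq] at hcd heq
    obtain ⟨hne, ⟨hc1, hc2, hd1, hd2, hD⟩, hnot⟩ := hcd
    obtain ⟨rfl, rfl⟩ := heq
    refine ⟨by omega, ?_⟩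
    push Not at hnot
    obtain ⟨hn1, hn2, hn3⟩ := hnot hd1
    rcases Nat.lt_or_ge c 3 with hc | hc
    · left
      have : c ≠ 1 := fun h => by have := hn1 h; have := hD h; omega
      have hc2 : c = 2 := by omega
      have := hn2 hc2
      constructor
      · omega
      · have : d ≠ m := fun h => hne ⟨hc2, h⟩
        omega
    · right
      have hi : c - 3 < m := by omega
      have h3 := hn3 ⟨c - 3, hi⟩ (by simp; omega)
      refine ⟨Fin.rev ⟨c - 3, hi⟩, ?_, ?_⟩
      · simp [Fin.val_rev]; omega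
      · rw [Fin.rev_rev]; omega
  · rintro ⟨hb1, ⟨ha, hb⟩ | ⟨r, ha, hb⟩⟩
    · refine ⟨(2, m + 3 - b), ?_, ?_⟩
      · simp only [mem_erase, ne_eq, mem_sdiff, mem_D, mem_YA, Prod.mk.injEq]
        refine ⟨by omega, ⟨by omega, by omega, by omega, by omega, by omega⟩, ?_⟩
        rintro ⟨_, ⟨h, _⟩ | ⟨_, h⟩ | ⟨i, h, _⟩⟩ <;> omega
      · simp only [Prod.mk.injEq]; omega
    · have hr := r.2
      have hl := (lam (Fin.rev r)).2
      refine ⟨(m + 3 - a, m + 3 - b), ?_, ?_⟩
      · simp only [mem_erase, ne_eq, mem_sdiff, mem_D, mem_YA, Prod.mk.injEq]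
        refine ⟨by omega, ⟨by omega, by omega, by omega, by omega, by omega⟩, ?_⟩
        rintro ⟨_, ⟨h, _⟩ | ⟨h, _⟩ | ⟨i, h, h'⟩⟩
        · omega
        · omega
        · have : i = Fin.rev r := by
            apply Fin.ext
            rw [Fin.val_rev]
            omega
          rw [this] at h'
          omega
      · simp only [Prod.mk.injEq]; omega

theorem e_D' (hS : SplitStm) (hDu : DualStm) (m : ℕ) (hm : 1 ≤ m) :
    e (D (m + 2)) = ∑ lam : Fin m → Fin m with Antitone lam,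
      e (Y (m + 2) (lamA lam)) * e (Y (m + 1) (lamB lam)) := by
  have hp : (2, m) ∈ D (m + 2) := by rw [mem_D]; omega
  rw [hS _ _ hp]
  symm
  apply Finset.sum_bij (fun lam _ => Y (m + 2) (lamA lam))
  · -- maps into
    intro lam hlam
    rw [mem_filter] at hlam
    have hanti : Antitone lam := hlam.2
    rw [mem_filter, mem_powerset]
    refine ⟨?_, ?_, ?_, ?_⟩
    · rintro ⟨a, b⟩ hab
      rw [mem_YA] at hab
      rw [mem_D]
      rcases hab with ⟨h1, ⟨h2, h3⟩ | ⟨h2, h3⟩ | ⟨i, h2, h3⟩⟩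
      · omega
      · omega
      · have := i.2
        have := (lam i).2
        omega
    · rw [mem_YA]
      rintro ⟨_, ⟨h, _⟩ | ⟨_, h⟩ | ⟨i, h, _⟩⟩ <;> omega
    · rintro ⟨a, b⟩ hab ⟨c, d⟩ hcd hle
      rw [mem_YA] at hab
      rw [mem_sdiff, mem_D, mem_YA] at hcd
      obtain ⟨⟨hc1, hc2, hd1, hd2, hD⟩, hnot⟩ := hcd
      apply hnot
      refine ⟨hd1, ?_⟩
      rw [Prod.mk_le_mk] at hle
      rcases hab with ⟨h1, ⟨h2, h3⟩ | ⟨h2, h3⟩ | ⟨i, h2, h3⟩⟩
      · left; omega
      · rcases Nat.lt_or_ge c 2 with h | h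
        · left; omega
        · right; left; omega
      · have := (lam i).2
        rcases Nat.lt_or_ge c 2 with h | h
        · left; omega
        · rcases Nat.lt_or_ge c 3 with h' | h'
          · right; left; omega
          · right; right
            have hi := i.2
            refine ⟨⟨c - 3, by omega⟩, by simp; omega, ?_⟩
            have h4 : lam i ≤ lam ⟨c - 3, by omega⟩ := hanti (by
              rw [Fin.le_def]; simp; omega)
            rw [Fin.le_def] at h4
            omega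
    · rintro ⟨c, d⟩ hcd hle
      simp only [mem_erase, ne_eq, mem_sdiff, mem_D, mem_YA, Prod.mk.injEq] at hcd
      obtain ⟨hne, ⟨hc1, hc2, hd1, hd2, hD⟩, hnot⟩ := hcd
      rw [Prod.mk_le_mk] at hle
      apply hnot
      refine ⟨hd1, ?_⟩
      rcases Nat.lt_or_ge c 2 with h | h
      · left; omega
      · right; left; omega
  · -- injective
    intro lam _ lam' _ heq
    funext i
    apply Fin.ext
    have key : ∀ b, (1 ≤ b ∧ b ≤ (lam i : ℕ)) ↔ (1 ≤ b ∧ b ≤ (lam' i : ℕ)) := by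
      intro b
      have h := Finset.ext_iff.1 heq ((i : ℕ) + 3, b)
      rw [mem_YA, mem_YA] at h
      constructor
      · rintro ⟨h1, h2⟩
        obtain ⟨_, ⟨h3, _⟩ | ⟨h3, _⟩ | ⟨j, h3, h4⟩⟩ := h.1 ⟨h1, Or.inr (Or.inr ⟨i, rfl, h2⟩)⟩
        · omega
        · omega
        · have : j = i := Fin.ext (by omega)
          rw [this] at h4
          exact ⟨h1, h4⟩
      · rintro ⟨h1, h2⟩
        obtain ⟨_, ⟨h3, _⟩ | ⟨h3, _⟩ | ⟨j, h3, h4⟩⟩ := h.2 ⟨h1, Or.inr (Or.inr ⟨i, rfl, h2⟩)⟩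
        · omega
        · omega
        · have : j = i := Fin.ext (by omega)
          rw [this] at h4
          exact ⟨h1, h4⟩
    rcases lt_trichotomy (lam i : ℕ) (lam' i : ℕ) with h | h | h
    · have := (key (lam' i)).2 ⟨by omega, le_rfl⟩
      omega
    · exact h
    · have := (key (lam i)).1 ⟨by omega, le_rfl⟩
      omega
  · -- surjective
    intro I hI
    rw [mem_filter, mem_powerset] at hI
    obtain ⟨hIS, hpI, hdown, hrest⟩ := hI
    -- `I` is down-closed in `D`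
    have hdc : ∀ a b c d, (a, b) ∈ I → (c, d) ∈ D (m + 2) → c ≤ a → d ≤ b → (c, d) ∈ I := by
      intro a b c d hab hcd h1 h2
      by_contra hno
      exact hdown (a, b) hab (c, d) (mem_sdiff.2 ⟨hcd, hno⟩) (Prod.mk_le_mk.2 ⟨h1, h2⟩)
    -- cells not in `I`
    have hbig : ∀ a b, (a, b) ∈ I → ¬ (2 ≤ a ∧ m ≤ b) := by
      rintro a b hab ⟨h1, h2⟩
      exact hpI (hdc a b 2 m hab hp h1 h2)
    -- cells in `I`
    have hsmall : ∀ a b, (a, b) ∈ D (m + 2) → a ≤ 2 → b ≤ m → (a, b) ≠ (2, m) → (a, b) ∈ I := by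
      intro a b hab h1 h2 hne
      by_contra hno
      exact hrest (a, b) (mem_erase.2 ⟨hne, mem_sdiff.2 ⟨hab, hno⟩⟩) (Prod.mk_le_mk.2 ⟨h1, h2⟩)
    let s : Fin m → Finset ℕ := fun i => (Icc 1 (m + 2)).filter fun j => ((i : ℕ) + 3, j) ∈ I
    have hs : ∀ i j, j ∈ s i ↔ 1 ≤ j ∧ j ≤ (s i).card := by
      intro i
      apply down_eq
      · intro j hj
        simp only [s, mem_filter, mem_Icc] at hj
        exact hj.1.1
      · intro j hj k hk1 hk2
        simp only [s, mem_filter, mem_Icc] at hj ⊢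
        refine ⟨⟨hk1, by omega⟩, hdc _ _ _ _ hj.2 ?_ le_rfl hk2⟩
        have := i.2
        rw [mem_D]
        omega
    have hslt : ∀ i, (s i).card < m := by
      intro i
      by_contra hge
      have : m ∈ s i := (hs i m).2 ⟨hm, by omega⟩
      simp only [s, mem_filter, mem_Icc] at this
      exact hbig _ _ this.2 ⟨by omega, le_rfl⟩
    refine ⟨fun i => ⟨(s i).card, hslt i⟩, ?_, ?_⟩
    · rw [mem_filter]
      refine ⟨mem_univ _, ?_⟩
      intro i j hij
      rw [Fin.le_def]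
      simp only
      apply card_le_card
      intro k hk
      simp only [s, mem_filter, mem_Icc] at hk ⊢
      rw [Fin.le_def] at hij
      refine ⟨hk.1, hdc _ _ _ _ hk.2 ?_ (by omega) le_rfl⟩
      have := i.2
      rw [mem_D]
      omega
    · ext ⟨a, b⟩
      rw [mem_YA]
      constructor
      · rintro ⟨h1, ⟨h2, h3⟩ | ⟨h2, h3⟩ | ⟨i, h2, h3⟩⟩
        · apply hsmall a b _ (by omega) h3
          · simp only [ne_eq, Prod.mk.injEq]; omega
          · rw [mem_D]; omega
        · apply hsmall a b _ (by omega) (by omega)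
          · simp only [ne_eq, Prod.mk.injEq]; omega
          · rw [mem_D]; omega
        · have := (hs i b).2 ⟨h1, h3⟩
          simp only [s, mem_filter] at this
          rw [h2]
          exact this.2
      · intro hab
        have hD := hIS hab
        rw [mem_D] at hD
        refine ⟨hD.2.2.1, ?_⟩
        have hb := hbig a b hab
        rcases Nat.lt_or_ge a 2 with h | h
        · left; omega
        · rcases Nat.lt_or_ge a 3 with h' | h'
          · right; left; omega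
          · right; right
            refine ⟨⟨a - 3, by omega⟩, by simp; omega, ?_⟩
            refine ((hs ⟨a - 3, by omega⟩ b).1 ?_).2
            simp only [s, mem_filter, mem_Icc]
            refine ⟨by omega, ?_⟩
            rw [show a - 3 + 3 = a by omega]
            exact hab
  · -- values
    intro lam _
    congr 1
    rw [← dual_set hm lam]
    apply hDu
    rintro ⟨c, d⟩ hcd
    simp only [mem_erase, mem_sdiff, mem_D] at hcd
    simp only
    omega

end P3

end Sq
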