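import Pool.Agent.R666.Sq.Defs

/-!
# Piece P4: from the shapes to the summand `T`
-/

namespace Sq

open Finset

/-- Statement of `e_Y` (piece P2). -/
def P4.YStm : Prop := ∀ (k : ℕ) (lam : Fin k → ℕ), Antitone lam →
    (e (Y k lam) : ℚ) = ((∑ i, lam i).factorial : ℚ) *
      (Vd fun i => (lam i : ℚ) + (k - 1 - (i : ℕ) : ℕ)) /
      ∏ i, ((lam i + (k - 1 - (i : ℕ))).factorial : ℚ)

namespace P4

lemma Vd_ite {k : ℕ} (x : Fin k → ℚ) : Vd x = ∏ i, ∏ j, if i < j then x i - x j else 1 := by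
  unfold Vd
  apply Finset.prod_congr rfl
  intro i _
  rw [Finset.prod_ite, Finset.prod_const_one, mul_one]
  apply Finset.prod_congr _ (fun _ _ => rfl)
  ext j
  simp

lemma Vd_cons {k : ℕ} (a : ℚ) (x : Fin k → ℚ) :
    Vd (Fin.cons a x : Fin (k + 1) → ℚ) = (∏ j, (a - x j)) * Vd x := by
  unfold Vd
  rw [Fin.prod_univ_succ, Fin.prod_Ioi_zero]
  congr 1
  apply Finset.prod_congr rfl
  intro i _
  rw [Fin.prod_Ioi_succ]
  simp

lemma Vd_snoc {k : ℕ} (a : ℚ) (x : Fin k → ℚ) :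
    Vd (Fin.snoc x a : Fin (k + 1) → ℚ) = (∏ j, (x j - a)) * Vd x := by
  rw [Vd_ite, Vd_ite, Fin.prod_univ_castSucc]
  have h1 : ∏ j, (if Fin.last k < j then (Fin.snoc x a : Fin (k + 1) → ℚ) (Fin.last k) -
      (Fin.snoc x a : Fin (k + 1) → ℚ) j else 1) = 1 := by
    apply Finset.prod_eq_one
    intro j _
    rw [if_neg (not_lt.2 (Fin.le_last j))]
  rw [h1, mul_one, ← Finset.prod_mul_distrib]
  apply Finset.prod_congr rfl
  intro i _
  rw [Fin.prod_univ_castSucc, if_pos (Fin.castSucc_lt_last i), mul_comm]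
  simp

lemma Vd_rev {k : ℕ} (c : ℚ) (x : Fin k → ℚ) : Vd (fun i => c - x (Fin.rev i)) = Vd x := by
  rw [Vd_ite, Vd_ite, ← Equiv.prod_comp Fin.revPerm]
  have h1 : ∀ i : Fin k, (∏ j, if Fin.revPerm i < j then c - x (Fin.rev (Fin.revPerm i)) -
      (c - x (Fin.rev j)) else 1) = ∏ j, if j < i then x j - x i else 1 := by
    intro i
    rw [← Equiv.prod_comp Fin.revPerm]
    apply Finset.prod_congr rfl
    intro j _
    simp only [Fin.revPerm_apply, Fin.rev_rev, Fin.rev_lt_rev]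
    split_ifs with h
    · ring
    · rfl
  rw [Finset.prod_congr rfl (fun i _ => h1 i), Finset.prod_comm]

lemma sum_tail (m : ℕ) : ∑ i : Fin m, (m - 1 - (i : ℕ)) = m.choose 2 := by
  rw [← Equiv.sum_comp Fin.revPerm]
  have : ∀ i : Fin m, m - 1 - ((Fin.revPerm i : Fin m) : ℕ) = (i : ℕ) := by
    intro i
    have := i.2
    simp only [Fin.revPerm_apply, Fin.val_rev]
    omega
  rw [Finset.sum_congr rfl (fun i _ => this i), Fin.sum_univ_eq_sum_range (fun i => i) m,
    Finset.sum_range_id, Nat.choose_two_right]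

lemma lamA_anti {m : ℕ} (lam : Fin m → Fin m) (h : Antitone lam) : Antitone (lamA lam) := by
  have hlt : ∀ i, (lam i : ℕ) ≤ m - 1 := fun i => by have := (lam i).2; omega
  intro i j hij
  unfold lamA
  refine Fin.cases ?_ (fun j => ?_) j hij
  · intro hij
    have : i = 0 := le_antisymm hij (Fin.zero_le i)
    rw [this]
  · intro hij
    refine Fin.cases ?_ (fun i => ?_) i hij
    · intro _
      rw [Fin.cons_zero, Fin.cons_succ]
      refine Fin.cases ?_ (fun j => ?_) j
      · rw [Fin.cons_zero]; omega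
      · rw [Fin.cons_succ]
        have := hlt j
        omega
    · intro hij
      rw [Fin.succ_le_succ_iff] at hij
      rw [Fin.cons_succ, Fin.cons_succ]
      refine Fin.cases ?_ (fun j => ?_) j hij
      · intro hij
        have : i = 0 := le_antisymm hij (Fin.zero_le i)
        rw [this]
      · intro hij
        refine Fin.cases ?_ (fun i => ?_) i hij
        · intro _
          rw [Fin.cons_zero, Fin.cons_succ]
          exact hlt j
        · intro hij
          rw [Fin.succ_le_succ_iff] at hij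
          rw [Fin.cons_succ, Fin.cons_succ]
          exact h hij

lemma lamB_anti {m : ℕ} (lam : Fin m → Fin m) (h : Antitone lam) : Antitone (lamB lam) := by
  intro i j hij
  unfold lamB
  refine Fin.lastCases ?_ (fun i => ?_) i hij
  · intro hij
    have : j = Fin.last m := le_antisymm (Fin.le_last j) hij
    rw [this]
  · intro hij
    refine Fin.lastCases ?_ (fun j => ?_) j hij
    · intro _
      rw [Fin.snoc_last, Fin.snoc_castSucc]
      have := (lam (Fin.rev i)).2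
      omega
    · intro hij
      rw [Fin.castSucc_le_castSucc_iff] at hij
      rw [Fin.snoc_castSucc, Fin.snoc_castSucc]
      have h2 : lam (Fin.rev i) ≤ lam (Fin.rev j) := h (Fin.rev_le_rev.2 hij)
      rw [Fin.le_def] at h2
      omega

lemma pointwise (m l : ℕ) (hl : l + 2 ≤ 2 * m) :
    ((2 * m + 1 : ℚ) - l) * ((2 * m - 1 : ℚ) - l) * ((2 * m + 2 : ℚ) - l - 2) /
      ((l.factorial : ℚ) * ((2 * m + 2 - l).factorial : ℚ)) =
    1 / ((l.factorial : ℚ) * ((2 * m - 2 - l).factorial : ℚ) * ((2 * m + 2 - l : ℕ) : ℚ)) := by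
  obtain ⟨N, hN⟩ : ∃ N, 2 * m = l + 2 + N := ⟨2 * m - 2 - l, by omega⟩
  have h1 : 2 * m + 2 - l = N + 4 := by omega
  have h2 : 2 * m - 2 - l = N := by omega
  rw [h1, h2]
  have hc : (2 * m : ℚ) = l + 2 + N := by exact_mod_cast hN
  rw [hc]
  have hf : ((N + 4).factorial : ℚ) = (N + 4) * ((N + 3) * ((N + 2) * ((N + 1) * N.factorial))) := by
    rw [Nat.factorial_succ, Nat.factorial_succ, Nat.factorial_succ, Nat.factorial_succ]
    push_cast
    ring
  rw [hf]
  have e1 : (l : ℚ) + 2 + N + 1 - l = N + 3 := by ring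
  have e2 : (l : ℚ) + 2 + N - 1 - l = N + 1 := by ring
  have e3 : (l : ℚ) + 2 + N + 2 - l - 2 = N + 2 := by ring
  rw [e1, e2, e3]
  have f1 : (l.factorial : ℚ) ≠ 0 := by exact_mod_cast Nat.factorial_ne_zero l
  have f2 : (N.factorial : ℚ) ≠ 0 := by exact_mod_cast Nat.factorial_ne_zero N
  have g1 : (N : ℚ) + 1 ≠ 0 := by positivity
  have g2 : (N : ℚ) + 2 ≠ 0 := by positivity
  have g3 : (N : ℚ) + 3 ≠ 0 := by positivity
  have g4 : (N : ℚ) + 4 ≠ 0 := by positivity
  push_cast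
  field_simp

theorem term_eq' (hY : YStm) (m : ℕ) (hm : 1 ≤ m) (lam : Fin m → Fin m) (h : Antitone lam) :
    (e (Y (m + 2) (lamA lam)) * e (Y (m + 1) (lamB lam)) : ℚ) =
      T (fun i : Fin m => (lam i : ℕ) + (m - 1 - (i : ℕ))) /
        ((2 * m + 1).factorial * (2 * m - 1).factorial) := by
  have hm1 : ((m - 1 : ℕ) : ℚ) = m - 1 := by rw [Nat.cast_sub hm]; simp
  set l : Fin m → ℕ := fun i => (lam i : ℕ) + (m - 1 - (i : ℕ)) with hl
  have hl2 : ∀ i, l i + 2 ≤ 2 * m := by
    intro i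
    have h1 := (lam i).2
    have h2 := i.2
    simp only [hl]
    omega
  have hsum : ∑ i, l i = ∑ i, (lam i : ℕ) + m.choose 2 := by
    simp only [hl]
    rw [Finset.sum_add_distrib, sum_tail]
  -- shape A
  have hA1 : ∑ i, lamA lam i = 2 * m - 1 + ∑ i, (lam i : ℕ) := by
    unfold lamA
    rw [Fin.sum_univ_succ, Fin.sum_univ_succ]
    simp only [Fin.cons_zero, Fin.cons_succ]
    omega
  have hA2 : (fun i : Fin (m + 2) => (lamA lam i : ℚ) + ((m + 2 - 1 - (i : ℕ) : ℕ) : ℚ)) =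
      Fin.cons (2 * m + 1 : ℚ) (Fin.cons (2 * m - 1 : ℚ) fun i => (l i : ℚ)) := by
    funext i
    unfold lamA
    refine Fin.cases ?_ (fun i => ?_) i
    · rw [Fin.cons_zero, Fin.cons_zero]
      simp only [Fin.val_zero]
      rw [show m + 2 - 1 - 0 = m + 1 by omega]
      push_cast
      ring
    · rw [Fin.cons_succ, Fin.cons_succ]
      refine Fin.cases ?_ (fun i => ?_) i
      · rw [Fin.cons_zero, Fin.cons_zero]
        simp only [Fin.val_succ, Fin.val_zero]
        rw [show m + 2 - 1 - (0 + 1) = m by omega, hm1]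
        ring
      · rw [Fin.cons_succ, Fin.cons_succ]
        simp only [Fin.val_succ, hl]
        have := i.2
        rw [show m + 2 - 1 - ((i : ℕ) + 1 + 1) = m - 1 - i by omega]
        push_cast
        ring
  have hA3 : ∏ i, ((lamA lam i + (m + 2 - 1 - (i : ℕ))).factorial : ℚ) =
      ((2 * m + 1).factorial : ℚ) * (((2 * m - 1).factorial : ℚ) * ∏ i, ((l i).factorial : ℚ)) := by
    unfold lamA
    rw [Fin.prod_univ_succ, Fin.prod_univ_succ]
    simp only [Fin.cons_zero, Fin.cons_succ, Fin.val_succ, Fin.val_zero]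
    rw [show m + (m + 2 - 1 - 0) = 2 * m + 1 by omega,
      show m - 1 + (m + 2 - 1 - (0 + 1)) = 2 * m - 1 by omega]
    congr 2
    apply Finset.prod_congr rfl
    intro i _
    rw [show m + 2 - 1 - ((i : ℕ) + 1 + 1) = m - 1 - i by omega]
  -- shape B
  have hB1 : ∑ i, lamB lam i = m ^ 2 + 2 * m + 2 + m.choose 2 - ∑ i, l i := by
    unfold lamB
    rw [Fin.sum_univ_castSucc]
    simp only [Fin.snoc_castSucc, Fin.snoc_last]
    have h1 : ∑ r : Fin m, (m + 2 - (lam (Fin.rev r) : ℕ)) = ∑ r : Fin m, (m + 2 - (lam r : ℕ)) :=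
      Equiv.sum_comp Fin.revPerm (fun r : Fin m => m + 2 - (lam r : ℕ))
    have h2 : ∑ r : Fin m, (m + 2 - (lam r : ℕ)) + ∑ r : Fin m, (lam r : ℕ) = m * (m + 2) := by
      rw [← Finset.sum_add_distrib]
      have : ∀ r ∈ (Finset.univ : Finset (Fin m)), m + 2 - (lam r : ℕ) + (lam r : ℕ) = m + 2 := by
        intro r _
        have := (lam r).2
        omega
      rw [Finset.sum_congr rfl this]
      simp
    rw [h1, hsum]
    have h3 : m ^ 2 + 2 * m = m * (m + 2) := by ring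
    omega
  have hB2 : (fun i : Fin (m + 1) => (lamB lam i : ℚ) + ((m + 1 - 1 - (i : ℕ) : ℕ) : ℚ)) =
      Fin.snoc (fun r : Fin m => (2 * m + 2 : ℚ) - (l (Fin.rev r) : ℚ)) 2 := by
    funext i
    unfold lamB
    refine Fin.lastCases ?_ (fun i => ?_) i
    · rw [Fin.snoc_last, Fin.snoc_last]
      simp
    · rw [Fin.snoc_castSucc, Fin.snoc_castSucc]
      simp only [hl, Fin.val_castSucc, Fin.val_rev]
      have h1 := i.2
      have h2 := (lam (Fin.rev i)).2
      have e1 : m - 1 - (m - ((i : ℕ) + 1)) = i := by omega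
      rw [e1]
      have e2 : m + 2 - (lam (Fin.rev i) : ℕ) + (m + 1 - 1 - (i : ℕ)) + ((lam (Fin.rev i) : ℕ) + i) =
          2 * m + 2 := by omega
      have e3 : (((m + 2 - (lam (Fin.rev i) : ℕ) : ℕ) : ℚ)) + ((m + 1 - 1 - (i : ℕ) : ℕ) : ℚ) +
          (((lam (Fin.rev i) : ℕ) : ℚ) + (i : ℕ)) = 2 * m + 2 := by exact_mod_cast e2
      push_cast at e3 ⊢
      linarith
  have hB3 : ∏ i, ((lamB lam i + (m + 1 - 1 - (i : ℕ))).factorial : ℚ) =
      (∏ i, ((2 * m + 2 - l i).factorial : ℚ)) * 2 := by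
    unfold lamB
    rw [Fin.prod_univ_castSucc]
    simp only [Fin.snoc_castSucc, Fin.snoc_last, Fin.val_castSucc, Fin.val_last]
    congr 1
    · rw [← Equiv.prod_comp Fin.revPerm (fun i => ((2 * m + 2 - l i).factorial : ℚ))]
      apply Finset.prod_congr rfl
      intro i _
      have h1 := i.2
      have h2 := (lam (Fin.rev i)).2
      have : m + 2 - (lam (Fin.rev i) : ℕ) + (m + 1 - 1 - (i : ℕ)) =
          2 * m + 2 - l (Fin.revPerm i) := by
        simp only [hl, Fin.revPerm_apply, Fin.val_rev]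
        omega
      rw [this]
    · norm_num
  have hVB : Vd (fun r : Fin m => (2 * m + 2 : ℚ) - (l (Fin.rev r) : ℚ)) = Vd fun i => (l i : ℚ) :=
    Vd_rev (2 * m + 2 : ℚ) (fun i => (l i : ℚ))
  have hprodB : ∏ j : Fin m, ((2 * m + 2 : ℚ) - (l (Fin.rev j) : ℚ) - 2) =
      ∏ j : Fin m, ((2 * m + 2 : ℚ) - (l j : ℚ) - 2) :=
    Equiv.prod_comp Fin.revPerm (fun j : Fin m => (2 * m + 2 : ℚ) - (l j : ℚ) - 2)
  rw [hY _ _ (lamA_anti lam h), hY _ _ (lamB_anti lam h), hA1, hA2, hA3, hB1, hB2, hB3, Vd_cons,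
    Vd_cons, Vd_snoc, hVB, hprodB, Fin.prod_univ_succ]
  simp only [Fin.cons_zero, Fin.cons_succ]
  unfold T
  have hsumA : 2 * m - 1 + ∑ i, l i - m.choose 2 = 2 * m - 1 + ∑ i, (lam i : ℕ) := by omega
  rw [hsumA]
  have hpw : ∏ i, (1 / ((l i).factorial * (2 * m - 2 - l i).factorial * (2 * m + 2 - l i : ℕ)) : ℚ) =
      (∏ i, ((2 * m + 1 : ℚ) - l i)) * (∏ i, ((2 * m - 1 : ℚ) - l i)) *
        (∏ i, ((2 * m + 2 : ℚ) - l i - 2)) /
        ((∏ i, ((l i).factorial : ℚ)) * ∏ i, ((2 * m + 2 - l i).factorial : ℚ)) := by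
    rw [← Finset.prod_mul_distrib, ← Finset.prod_mul_distrib, ← Finset.prod_mul_distrib,
      ← Finset.prod_div_distrib]
    apply Finset.prod_congr rfl
    intro i _
    exact (pointwise m (l i) (hl2 i)).symm
  rw [hpw]
  have hf1 : ((2 * m + 1).factorial : ℚ) ≠ 0 := by exact_mod_cast Nat.factorial_ne_zero _
  have hf2 : ((2 * m - 1).factorial : ℚ) ≠ 0 := by exact_mod_cast Nat.factorial_ne_zero _
  have hf3 : (∏ i, ((l i).factorial : ℚ)) ≠ 0 :=
    Finset.prod_ne_zero_iff.2 fun i _ => by exact_mod_cast Nat.factorial_ne_zero _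
  have hf4 : (∏ i, ((2 * m + 2 - l i).factorial : ℚ)) ≠ 0 :=
    Finset.prod_ne_zero_iff.2 fun i _ => by exact_mod_cast Nat.factorial_ne_zero _
  have h2 : (2 * (m : ℚ) + 1 - (2 * m - 1)) = 2 := by ring
  rw [h2]
  generalize (∏ i, ((l i).factorial : ℚ)) = p1 at hf3 ⊢
  generalize (∏ i, ((2 * m + 2 - l i).factorial : ℚ)) = p2 at hf4 ⊢
  generalize (∏ i, ((2 * m + 1 : ℚ) - l i)) = p3
  generalize (∏ i, ((2 * m - 1 : ℚ) - l i)) = p4
  generalize (∏ i, ((2 * m + 2 : ℚ) - l i - 2)) = p5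
  generalize ((2 * m + 1).factorial : ℚ) = f1 at hf1 ⊢
  generalize ((2 * m - 1).factorial : ℚ) = f2 at hf2 ⊢
  generalize (((2 * m - 1 + ∑ i, (lam i : ℕ)).factorial : ℕ) : ℚ) = f3
  generalize (((m ^ 2 + 2 * m + 2 + m.choose 2 - ∑ i, l i).factorial : ℕ) : ℚ) = f4
  generalize (Vd fun i => (l i : ℚ)) = V
  field_simp

lemma strictAnti_bound {m K : ℕ} (l : Fin m → Fin K) (hl : StrictAnti l) (d : ℕ) :
    ∀ i j : Fin m, (j : ℕ) = i + d → (l j : ℕ) + d ≤ l i := by
  induction d with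
  | zero =>
    intro i j hij
    have : j = i := Fin.ext (by omega)
    rw [this]; omega
  | succ d ih =>
    intro i j hij
    have hj := j.2
    have h1 := ih i ⟨j - 1, by omega⟩ (by simp; omega)
    have h2 : l j < l ⟨j - 1, by omega⟩ := hl (by rw [Fin.lt_def]; simp; omega)
    rw [Fin.lt_def] at h2
    omega

end P4

theorem sum_shift (m : ℕ) (hm : 1 ≤ m) (g : (Fin m → ℕ) → ℚ) :
    ∑ lam : Fin m → Fin m with Antitone lam, g (fun i => (lam i : ℕ) + (m - 1 - (i : ℕ))) =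
      ∑ l : Fin m → Fin (2 * m - 1) with StrictAnti l, g (fun i => (l i : ℕ)) := by
  apply Finset.sum_bij (fun (lam : Fin m → Fin m) _ => fun i : Fin m =>
    (⟨(lam i : ℕ) + (m - 1 - (i : ℕ)), by have := (lam i).2; omega⟩ : Fin (2 * m - 1)))
  · intro lam hlam
    rw [mem_filter] at hlam ⊢
    refine ⟨mem_univ _, ?_⟩
    intro i j hij
    have h1 := hlam.2 hij.le
    rw [Fin.le_def] at h1
    rw [Fin.lt_def] at hij ⊢
    have := j.2
    simp only
    omega
  · intro lam _ lam' _ heq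
    funext i
    have := congrFun heq i
    rw [Fin.mk.injEq] at this
    apply Fin.ext
    omega
  · intro l hl
    rw [mem_filter] at hl
    have hb := P4.strictAnti_bound l hl.2
    have hup : ∀ i : Fin m, (l i : ℕ) + i ≤ 2 * m - 2 := by
      intro i
      have h1 := hb i ⟨0, by omega⟩ i (by simp)
      have h2 := (l ⟨0, by omega⟩).2
      omega
    have hlow : ∀ i : Fin m, m - 1 - (i : ℕ) ≤ l i := by
      intro i
      have hi := i.2
      have h1 := hb (m - 1 - i) i ⟨m - 1, by omega⟩ (by simp; omega)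
      omega
    refine ⟨fun i => ⟨(l i : ℕ) - (m - 1 - (i : ℕ)), ?_⟩, ?_, ?_⟩
    · have := hup i
      have := i.2
      omega
    · rw [mem_filter]
      refine ⟨mem_univ _, ?_⟩
      intro i j hij
      rw [Fin.le_def] at hij ⊢
      have h1 := hb (j - i) i j (by omega)
      have h2 := hlow i
      have h3 := hlow j
      have := j.2
      simp only
      omega
    · funext i
      apply Fin.ext
      have := hlow i
      simp only
      omega
  · intro lam _
    rfl

end Sq
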