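import Pool.Agent.R666.Sq.Defs

/-!
# Piece P5: Andréief's identity and sums over strictly decreasing tuples
-/

namespace Sq

open Finset

theorem andreief {m K : ℕ} (w : Fin K → ℚ) (φ ψ : Fin m → Fin K → ℚ) :
    ∑ l : Fin m → Fin K, (∏ i, w (l i)) * (Matrix.of fun i j => φ i (l j)).det *
        (Matrix.of fun i j => ψ i (l j)).det
      = m.factorial * (Matrix.of fun i j => ∑ a : Fin K, w a * φ i a * ψ j a).det := by
  have hexp : ∀ l : Fin m → Fin K, (∏ i, w (l i)) * (Matrix.of fun i j => φ i (l j)).det *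
        (Matrix.of fun i j => ψ i (l j)).det =
      ∑ σ : Equiv.Perm (Fin m), ∑ τ : Equiv.Perm (Fin m),
        ((Equiv.Perm.sign σ : ℤ) : ℚ) * ((Equiv.Perm.sign τ : ℤ) : ℚ) *
          ∏ j, (w (l j) * φ (σ j) (l j) * ψ (τ j) (l j)) := by
    intro l
    rw [Matrix.det_apply', Matrix.det_apply', mul_assoc, Finset.sum_mul_sum, Finset.mul_sum]
    refine Finset.sum_congr rfl fun σ _ => ?_
    rw [Finset.mul_sum]
    refine Finset.sum_congr rfl fun τ _ => ?_
    simp only [Matrix.of_apply, Finset.prod_mul_distrib]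
    ring
  simp_rw [hexp]
  rw [Finset.sum_comm]
  have hσ : ∀ σ : Equiv.Perm (Fin m), ∑ l : Fin m → Fin K, ∑ τ : Equiv.Perm (Fin m),
        ((Equiv.Perm.sign σ : ℤ) : ℚ) * ((Equiv.Perm.sign τ : ℤ) : ℚ) *
          ∏ j, (w (l j) * φ (σ j) (l j) * ψ (τ j) (l j)) =
      (Matrix.of fun i j => ∑ a : Fin K, w a * φ i a * ψ j a).det := by
    intro σ
    have hdet : (Matrix.of fun i j => ∑ a : Fin K, w a * φ i a * ψ j a).det =
        ∑ ρ : Equiv.Perm (Fin m), ((Equiv.Perm.sign ρ : ℤ) : ℚ) *
          ∏ i, ∑ a : Fin K, w a * φ i a * ψ (ρ i) a := by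
      rw [← Matrix.det_transpose, Matrix.det_apply']
      rfl
    rw [hdet, Finset.sum_comm]
    rw [← Equiv.sum_comp (Equiv.mulRight σ⁻¹) (fun ρ : Equiv.Perm (Fin m) =>
      ((Equiv.Perm.sign ρ : ℤ) : ℚ) * ∏ i, ∑ a : Fin K, w a * φ i a * ψ (ρ i) a)]
    refine Finset.sum_congr rfl fun τ _ => ?_
    rw [← Finset.mul_sum]
    have h1 : ∑ l : Fin m → Fin K, ∏ j, (w (l j) * φ (σ j) (l j) * ψ (τ j) (l j)) =
        ∏ j, ∑ a : Fin K, w a * φ (σ j) a * ψ (τ j) a := by
      rw [Finset.prod_univ_sum, Fintype.piFinset_univ]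
    rw [h1, ← Equiv.prod_comp σ (fun i => ∑ a : Fin K, w a * φ i a *
      ψ ((Equiv.mulRight σ⁻¹ τ) i) a)]
    congr 1
    · simp [Equiv.Perm.sign_mul, mul_comm]
    · simp
  rw [Finset.sum_congr rfl fun σ _ => hσ σ]
  simp [Fintype.card_perm]

theorem sum_strictAnti {m K : ℕ} (g : (Fin m → Fin K) → ℚ)
    (hsym : ∀ l (σ : Equiv.Perm (Fin m)), g (l ∘ σ) = g l)
    (hinj : ∀ l, ¬ Function.Injective l → g l = 0) :
    ∑ l : Fin m → Fin K, g l =
      m.factorial * ∑ l : Fin m → Fin K with StrictAnti l, g l := by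
  classical
  have hone : ∀ l : Fin m → Fin K, g l =
      ∑ σ : Equiv.Perm (Fin m), if StrictAnti (l ∘ σ) then g (l ∘ σ) else 0 := by
    intro l
    by_cases hl : Function.Injective l
    · -- existence
      let σ : Equiv.Perm (Fin m) := Tuple.sort (fun i => Fin.rev (l i))
      have hσ : StrictAnti (l ∘ σ) := by
        have hm : Monotone ((fun i => Fin.rev (l i)) ∘ σ) := Tuple.monotone_sort _
        have hinj' : Function.Injective ((fun i => Fin.rev (l i)) ∘ σ) :=
          (Fin.rev_injective.comp hl).comp σ.injective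
        have hs := hm.strictMono_of_injective hinj'
        intro a b hab
        have := hs hab
        simpa using this
      rw [Finset.sum_eq_single σ]
      · rw [if_pos hσ, hsym]
      · intro τ _ hτ
        rw [if_neg]
        intro hτ'
        apply hτ
        have hr : (fun i => Fin.rev ((l ∘ τ) i)) = (fun i => Fin.rev ((l ∘ σ) i)) := by
          have hτ2 : StrictMono (fun i => Fin.rev ((l ∘ τ) i)) := fun a b hab => by
            simpa using hτ' hab
          have hσ2 : StrictMono (fun i => Fin.rev ((l ∘ σ) i)) := fun a b hab => by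
            simpa using hσ hab
          rw [← StrictMono.range_inj hτ2 hσ2]
          ext y
          constructor
          · rintro ⟨a, ha⟩
            exact ⟨σ.symm (τ a), by simpa using ha⟩
          · rintro ⟨a, ha⟩
            exact ⟨τ.symm (σ a), by simpa using ha⟩
        ext i
        have h1 := congrFun hr i
        have h2 : l (τ i) = l (σ i) := Fin.rev_injective h1
        rw [hl h2]
      · intro h; exact absurd (Finset.mem_univ _) h
    · rw [hinj l hl]
      symm
      apply Finset.sum_eq_zero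
      intro σ _
      rw [if_neg]
      intro h
      apply hl
      have h1 : Function.Injective (l ∘ σ) := h.injective
      exact (Function.Injective.of_comp_iff' l σ.bijective).mp h1
  calc ∑ l : Fin m → Fin K, g l
      = ∑ l : Fin m → Fin K, ∑ σ : Equiv.Perm (Fin m),
          if StrictAnti (l ∘ σ) then g (l ∘ σ) else 0 := Finset.sum_congr rfl fun l _ => hone l
    _ = ∑ σ : Equiv.Perm (Fin m), ∑ l : Fin m → Fin K,
          if StrictAnti (l ∘ σ) then g (l ∘ σ) else 0 := Finset.sum_comm
    _ = ∑ σ : Equiv.Perm (Fin m), ∑ l : Fin m → Fin K,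
          if StrictAnti l then g l else 0 := by
        refine Finset.sum_congr rfl fun σ _ => ?_
        exact Equiv.sum_comp (Equiv.arrowCongr σ.symm (Equiv.refl _))
          (fun l : Fin m → Fin K => if StrictAnti l then g l else 0)
    _ = _ := by
        rw [Finset.sum_const, Finset.card_univ, Fintype.card_perm, Fintype.card_fin,
          nsmul_eq_mul, Finset.sum_filter]

end Sq
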