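import Pool.Agent.R666.Sq.Defs

/-!
# Piece P6: Krawtchouk polynomials
-/

namespace Sq

open Finset

namespace P6

theorem choose_desc (n p i j : ℕ) :
    (n + p + i + j).choose (n + i) * ((n + i).descFactorial i * (p + j).descFactorial j) =
      (n + p + i + j).descFactorial (i + j) * (n + p).choose n := by
  have h1 : n.factorial * (n + i).descFactorial i = (n + i).factorial := by
    have := Nat.factorial_mul_descFactorial (Nat.le_add_left i n)
    simpa using this
  have h2 : p.factorial * (p + j).descFactorial j = (p + j).factorial := by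
    have := Nat.factorial_mul_descFactorial (Nat.le_add_left j p)
    simpa using this
  have h3 : (n + p + i + j).choose (n + i) * (n + i).factorial * (p + j).factorial =
      (n + p + i + j).factorial := by
    have := Nat.choose_mul_factorial_mul_factorial (n := n + p + i + j) (k := n + i) (by omega)
    rwa [show n + p + i + j - (n + i) = p + j by omega] at this
  have h4 : (n + p).factorial * (n + p + i + j).descFactorial (i + j) =
      (n + p + i + j).factorial := by
    have := Nat.factorial_mul_descFactorial (n := n + p + i + j) (k := i + j) (by omega)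
    rwa [show n + p + i + j - (i + j) = n + p by omega] at this
  have h5 : (n + p).choose n * n.factorial * p.factorial = (n + p).factorial := by
    have := Nat.choose_mul_factorial_mul_factorial (n := n + p) (k := n) (by omega)
    rwa [show n + p - n = p by omega] at this
  apply Nat.eq_of_mul_eq_mul_right (Nat.mul_pos (Nat.factorial_pos n) (Nat.factorial_pos p))
  calc (n + p + i + j).choose (n + i) * ((n + i).descFactorial i * (p + j).descFactorial j) *
        (n.factorial * p.factorial)
      = (n + p + i + j).choose (n + i) * (n.factorial * (n + i).descFactorial i) *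
        (p.factorial * (p + j).descFactorial j) := by ring
    _ = (n + p + i + j).factorial := by rw [h1, h2, h3]
    _ = (n + p).factorial * (n + p + i + j).descFactorial (i + j) := h4.symm
    _ = ((n + p).choose n * n.factorial * p.factorial) *
          (n + p + i + j).descFactorial (i + j) := by rw [h5]
    _ = _ := by ring

theorem P_eval (N k l : ℕ) (hl : l ≤ N) (x : ℚ) : (P N k x).eval (l : ℚ) =
    ∑ i ∈ range (k + 1), ((-1) ^ (k - i) * (k.choose i : ℚ) * x ^ (k - i) * (1 - x) ^ i) *
      ((l.descFactorial i : ℚ) * ((N - l).descFactorial (k - i) : ℚ)) := by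
  unfold P
  rw [Polynomial.eval_finsetSum]
  refine Finset.sum_congr rfl fun i _ => ?_
  have h : ((N : ℚ) - (l : ℚ)) = ((N - l : ℕ) : ℚ) := by rw [Nat.cast_sub hl]
  rw [Polynomial.eval_mul, Polynomial.eval_C, Polynomial.eval_mul, Polynomial.eval_comp,
    Polynomial.eval_sub, Polynomial.eval_C, Polynomial.eval_X, h,
    descPochhammer_eval_eq_descFactorial, descPochhammer_eval_eq_descFactorial]

theorem W_shift (N k i l : ℕ) (hk : k ≤ N) (hi : i ≤ k) (hl : l ≤ N - k) (x : ℚ) :
    W N x (i + l) * (((i + l).descFactorial i : ℚ) * ((N - (i + l)).descFactorial (k - i) : ℚ)) =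
      (N.descFactorial k : ℚ) * x ^ i * (1 - x) ^ (k - i) * W (N - k) x l := by
  obtain ⟨j, rfl⟩ := Nat.exists_eq_add_of_le hi
  obtain ⟨q, rfl⟩ := Nat.exists_eq_add_of_le hk
  rw [show i + j + q - (i + j) = q by omega] at hl ⊢
  obtain ⟨p, rfl⟩ := Nat.exists_eq_add_of_le hl
  have h := choose_desc l p i j
  unfold W
  rw [show i + j + (l + p) = l + p + i + j by omega, show i + l = l + i by omega,
    show l + p + i + j - (l + i) = p + j by omega, show i + j - i = j by omega,
    show l + p - l = p by omega]
  have h' : ((l + p + i + j).choose (l + i) : ℚ) * (((l + i).descFactorial i : ℚ) *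
      ((p + j).descFactorial j : ℚ)) = ((l + p + i + j).descFactorial (i + j) : ℚ) *
      ((l + p).choose l : ℚ) := by exact_mod_cast h
  calc ((l + p + i + j).choose (l + i) : ℚ) * x ^ (l + i) * (1 - x) ^ (p + j) *
        (((l + i).descFactorial i : ℚ) * ((p + j).descFactorial j : ℚ))
      = (((l + p + i + j).choose (l + i) : ℚ) * (((l + i).descFactorial i : ℚ) *
      ((p + j).descFactorial j : ℚ))) * (x ^ (l + i) * (1 - x) ^ (p + j)) := by ring
    _ = _ := by rw [h']; ring

theorem inner (N k i : ℕ) (hk : k ≤ N) (hi : i ≤ k) (x : ℚ) (g : ℕ → ℚ) :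
    ∑ l ∈ range (N + 1), W N x l * g l *
        ((l.descFactorial i : ℚ) * ((N - l).descFactorial (k - i) : ℚ)) =
      ∑ l ∈ range (N - k + 1), (N.descFactorial k : ℚ) * x ^ i * (1 - x) ^ (k - i) *
        W (N - k) x l * g (l + i) := by
  have h1 : ∑ l ∈ range (N + 1), W N x l * g l *
        ((l.descFactorial i : ℚ) * ((N - l).descFactorial (k - i) : ℚ)) =
      ∑ l ∈ Ico i (i + (N - k + 1)), W N x l * g l *
        ((l.descFactorial i : ℚ) * ((N - l).descFactorial (k - i) : ℚ)) := by
    symm
    apply Finset.sum_subset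
    · intro l hl
      simp only [Finset.mem_Ico, Finset.mem_range] at hl ⊢
      omega
    · intro l hl hl'
      simp only [Finset.mem_Ico, Finset.mem_range, not_and, not_lt] at hl hl'
      by_cases h : l < i
      · rw [Nat.descFactorial_of_lt h]; simp
      · have h2 := hl' (by omega)
        have h3 : N - l < k - i := by omega
        rw [Nat.descFactorial_of_lt h3]; simp
  rw [h1, Finset.sum_Ico_eq_sum_range, show i + (N - k + 1) - i = N - k + 1 by omega]
  refine Finset.sum_congr rfl fun l hl => ?_
  have hl' : l ≤ N - k := by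
    have := Finset.mem_range.mp hl
    omega
  rw [show l + i = i + l by omega]
  calc W N x (i + l) * g (i + l) *
        (((i + l).descFactorial i : ℚ) * ((N - (i + l)).descFactorial (k - i) : ℚ))
      = (W N x (i + l) * (((i + l).descFactorial i : ℚ) *
          ((N - (i + l)).descFactorial (k - i) : ℚ))) * g (i + l) := by ring
    _ = _ := by rw [W_shift N k i l hk hi hl']

theorem sum_W (N : ℕ) (x : ℚ) : ∑ l ∈ range (N + 1), W N x l = 1 := by
  have h := add_pow x (1 - x) N
  rw [show x + (1 - x) = 1 by ring, one_pow] at h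
  rw [h]
  refine Finset.sum_congr rfl fun l _ => ?_
  unfold W
  ring

/-- forward difference as a sum -/
theorem fwd_poly (k l : ℕ) (g : Polynomial ℚ) :
    ∑ i ∈ range (k + 1), (-1) ^ (k - i) * (k.choose i : ℚ) * g.eval ((l + i : ℕ) : ℚ) =
      (fwdDiff (1 : ℚ))^[k] (fun y => g.eval y) (l : ℚ) := by
  rw [fwdDiff_iter_eq_sum_shift]
  refine Finset.sum_congr rfl fun i _ => ?_
  rw [zsmul_eq_mul]
  push_cast
  simp

theorem fwd_cauchy (z k : ℕ) : ∀ l : ℕ, l + k < z →
    (fwdDiff (1 : ℕ))^[k] (fun y : ℕ => 1 / ((z : ℚ) - y)) l =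
      (k.factorial : ℚ) * ((z - l - k - 1).factorial : ℚ) / ((z - l).factorial : ℚ) := by
  induction k with
  | zero =>
    intro l hl
    obtain ⟨s, rfl⟩ : ∃ s, z = l + s + 1 := ⟨z - l - 1, by omega⟩
    simp only [Function.iterate_zero, id]
    rw [show l + s + 1 - l - 0 - 1 = s by omega, show l + s + 1 - l = s + 1 by omega,
      Nat.factorial_succ]
    push_cast
    have h1 : (s.factorial : ℚ) ≠ 0 := by exact_mod_cast Nat.factorial_ne_zero s
    have h2 : (s : ℚ) + 1 ≠ 0 := by positivity
    rw [show (l : ℚ) + s + 1 - l = s + 1 by ring]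
    field_simp
    simp
  | succ k ih =>
    intro l hl
    rw [Function.iterate_succ_apply', fwdDiff, ih l (by omega), ih (l + 1) (by omega)]
    obtain ⟨s, rfl⟩ : ∃ s, z = l + k + s + 2 := ⟨z - l - k - 2, by omega⟩
    rw [show l + k + s + 2 - (l + 1) - k - 1 = s by omega,
      show l + k + s + 2 - (l + 1) = k + s + 1 by omega,
      show l + k + s + 2 - l - k - 1 = s + 1 by omega,
      show l + k + s + 2 - l - (k + 1) - 1 = s by omega,
      show l + k + s + 2 - l = k + s + 1 + 1 by omega, Nat.factorial_succ (k + s + 1),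
      Nat.factorial_succ s, Nat.factorial_succ k]
    have h1 : ((k + s + 1).factorial : ℚ) ≠ 0 := by exact_mod_cast Nat.factorial_ne_zero _
    have h2 : (k : ℚ) + s + 1 + 1 ≠ 0 := by positivity
    push_cast
    field_simp
    ring

end P6

theorem P_sum (N k : ℕ) (hk : k ≤ N) (x : ℚ) (g : ℕ → ℚ) :
    ∑ l ∈ range (N + 1), W N x l * g l * (P N k x).eval (l : ℚ) =
      (N.descFactorial k : ℚ) * (x * (1 - x)) ^ k * ∑ l ∈ range (N - k + 1),
        W (N - k) x l * ∑ i ∈ range (k + 1), (-1) ^ (k - i) * (k.choose i : ℚ) * g (l + i) := by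
  have h1 : ∑ l ∈ range (N + 1), W N x l * g l * (P N k x).eval (l : ℚ) =
      ∑ l ∈ range (N + 1), ∑ i ∈ range (k + 1),
        ((-1) ^ (k - i) * (k.choose i : ℚ) * x ^ (k - i) * (1 - x) ^ i) * (W N x l * g l *
        ((l.descFactorial i : ℚ) * ((N - l).descFactorial (k - i) : ℚ))) := by
    refine Finset.sum_congr rfl fun l hl => ?_
    rw [P6.P_eval N k l (by have := Finset.mem_range.mp hl; omega), Finset.mul_sum]
    refine Finset.sum_congr rfl fun i _ => ?_
    ring
  rw [h1, Finset.sum_comm]
  simp_rw [Finset.mul_sum]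
  rw [Finset.sum_comm (s := range (N - k + 1))]
  refine Finset.sum_congr rfl fun i hi => ?_
  have hi' : i ≤ k := by
    have := Finset.mem_range.mp hi
    omega
  rw [← Finset.mul_sum, P6.inner N k i hk hi' x g, Finset.mul_sum]
  refine Finset.sum_congr rfl fun l _ => ?_
  obtain ⟨j, rfl⟩ := Nat.exists_eq_add_of_le hi'
  rw [show i + j - i = j by omega, mul_pow x (1 - x) (i + j), pow_add x, pow_add (1 - x)]
  ring

theorem P_monic (N k : ℕ) (x : ℚ) : (P N k x).Monic ∧ (P N k x).natDegree = k := by
  have hdeg : (P N k x).natDegree ≤ k := by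
    unfold P
    apply Polynomial.natDegree_sum_le_of_forall_le
    intro i hi
    have hi' : i ≤ k := by
      have := Finset.mem_range.mp hi
      omega
    refine (Polynomial.natDegree_C_mul_le _ _).trans ?_
    refine (Polynomial.natDegree_mul_le).trans ?_
    have h1 : (descPochhammer ℚ i).natDegree = i := descPochhammer_natDegree ℚ i
    have h2 : ((descPochhammer ℚ (k - i)).comp (Polynomial.C (N : ℚ) - Polynomial.X)).natDegree
        ≤ k - i := by
      refine (Polynomial.natDegree_comp_le).trans ?_
      rw [descPochhammer_natDegree]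
      have h3 : (Polynomial.C (N : ℚ) - Polynomial.X : Polynomial ℚ).natDegree ≤ 1 := by
        refine (Polynomial.natDegree_sub_le _ _).trans ?_
        simp
      calc (k - i) * (Polynomial.C (N : ℚ) - Polynomial.X : Polynomial ℚ).natDegree
          ≤ (k - i) * 1 := Nat.mul_le_mul_left _ h3
        _ = k - i := by omega
    omega
  have hcoef : (P N k x).coeff k = 1 := by
    unfold P
    rw [Polynomial.finsetSum_coeff]
    have : ∀ i ∈ range (k + 1), (Polynomial.C ((-1) ^ (k - i) * (k.choose i : ℚ) * x ^ (k - i) *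
        (1 - x) ^ i) * (descPochhammer ℚ i * (descPochhammer ℚ (k - i)).comp
        (Polynomial.C (N : ℚ) - Polynomial.X))).coeff k =
        (1 - x) ^ i * x ^ (k - i) * (k.choose i : ℚ) := by
      intro i hi
      have hi' : i ≤ k := by
        have := Finset.mem_range.mp hi
        omega
      obtain ⟨j, rfl⟩ := Nat.exists_eq_add_of_le hi'
      rw [show i + j - i = j by omega]
      have h2 : ((descPochhammer ℚ j).comp (Polynomial.C (N : ℚ) - Polynomial.X)).natDegree
          ≤ j := by
        refine (Polynomial.natDegree_comp_le).trans ?_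
        rw [descPochhammer_natDegree]
        have h3 : (Polynomial.C (N : ℚ) - Polynomial.X : Polynomial ℚ).natDegree ≤ 1 := by
          refine (Polynomial.natDegree_sub_le _ _).trans ?_
          simp
        calc j * (Polynomial.C (N : ℚ) - Polynomial.X : Polynomial ℚ).natDegree
            ≤ j * 1 := Nat.mul_le_mul_left _ h3
          _ = j := by omega
      have h4 : ((descPochhammer ℚ j).comp
          (Polynomial.C (N : ℚ) - Polynomial.X)).coeff j = (-1) ^ j := by
        have h5 : (Polynomial.C (N : ℚ) - Polynomial.X : Polynomial ℚ).natDegree = 1 := by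
          rw [Polynomial.natDegree_sub_eq_right_of_natDegree_lt] <;> simp
        have h6 := Polynomial.coeff_comp_degree_mul_degree (p := descPochhammer ℚ j)
          (q := (Polynomial.C (N : ℚ) - Polynomial.X : Polynomial ℚ)) (by rw [h5]; norm_num)
        rw [h5, descPochhammer_natDegree, mul_one] at h6
        rw [h6, (monic_descPochhammer ℚ j).leadingCoeff, one_mul, Polynomial.leadingCoeff, h5]
        simp
      rw [Polynomial.coeff_C_mul, Polynomial.coeff_mul_add_eq_of_natDegree_le
        (descPochhammer_natDegree ℚ i).le h2, h4]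
      have h7 : (descPochhammer ℚ i).coeff i = 1 := by
        have := (monic_descPochhammer ℚ i).coeff_natDegree
        rwa [descPochhammer_natDegree] at this
      rw [h7]
      have h8 : ((-1 : ℚ)) ^ j * (-1) ^ j = 1 := by
        rw [← mul_pow]; norm_num
      calc (-1) ^ j * ((i + j).choose i : ℚ) * x ^ j * (1 - x) ^ i * (1 * (-1) ^ j)
          = ((-1 : ℚ) ^ j * (-1) ^ j) * ((i + j).choose i : ℚ) * x ^ j * (1 - x) ^ i := by ring
        _ = _ := by rw [h8]; ring
    rw [Finset.sum_congr rfl this, ← add_pow]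
    simp
  have hmonic : (P N k x).Monic := Polynomial.monic_of_natDegree_le_of_coeff_eq_one k hdeg hcoef
  refine ⟨hmonic, le_antisymm hdeg ?_⟩
  apply Polynomial.le_natDegree_of_ne_zero
  rw [hcoef]
  exact one_ne_zero

theorem P_orth (N k : ℕ) (hk : k ≤ N) (x : ℚ) (g : Polynomial ℚ) (hg : g.natDegree < k) :
    ∑ l ∈ range (N + 1), W N x l * g.eval (l : ℚ) * (P N k x).eval (l : ℚ) = 0 := by
  rw [P_sum N k hk x (fun l => g.eval (l : ℚ))]
  rw [Finset.sum_eq_zero, mul_zero]
  intro l _
  rw [P6.fwd_poly, Polynomial.fwdDiff_iter_eq_zero_of_degree_lt hg]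
  simp

theorem P_norm (N k : ℕ) (hk : k ≤ N) (x : ℚ) (g : Polynomial ℚ) (hg : g.natDegree = k)
    (hg' : g.Monic) :
    ∑ l ∈ range (N + 1), W N x l * g.eval (l : ℚ) * (P N k x).eval (l : ℚ) =
      (N.descFactorial k : ℚ) * k.factorial * (x * (1 - x)) ^ k := by
  rw [P_sum N k hk x (fun l => g.eval (l : ℚ))]
  have h1 : ∀ l ∈ range (N - k + 1), W (N - k) x l *
      ∑ i ∈ range (k + 1), (-1) ^ (k - i) * (k.choose i : ℚ) * g.eval ((l + i : ℕ) : ℚ) =
      W (N - k) x l * k.factorial := by
    intro l _
    rw [P6.fwd_poly]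
    have h2 := Polynomial.fwdDiff_iter_degree_eq_factorial g
    rw [hg] at h2
    rw [h2, hg'.leadingCoeff]
    simp
  rw [Finset.sum_congr rfl h1, ← Finset.sum_mul, P6.sum_W]
  ring

theorem P_cauchy (N k z : ℕ) (hk : k ≤ N) (hz : N < z) (x : ℚ) :
    ∑ l ∈ range (N + 1), W N x l * (1 / ((z : ℚ) - l)) * (P N k x).eval (l : ℚ) =
      (N.descFactorial k : ℚ) * k.factorial * (x * (1 - x)) ^ k *
        ∑ l ∈ range (N - k + 1), W (N - k) x l *
          ((z - l - k - 1).factorial : ℚ) / ((z - l).factorial : ℚ) := by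
  rw [P_sum N k hk x (fun l => 1 / ((z : ℚ) - l))]
  rw [show (N.descFactorial k : ℚ) * k.factorial * (x * (1 - x)) ^ k *
        ∑ l ∈ range (N - k + 1), W (N - k) x l *
          ((z - l - k - 1).factorial : ℚ) / ((z - l).factorial : ℚ) =
      (N.descFactorial k : ℚ) * (x * (1 - x)) ^ k * (k.factorial *
        ∑ l ∈ range (N - k + 1), W (N - k) x l *
          ((z - l - k - 1).factorial : ℚ) / ((z - l).factorial : ℚ)) by ring]
  congr 1
  rw [Finset.mul_sum]
  refine Finset.sum_congr rfl fun l hl => ?_
  have hl' : l + k < z := by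
    have := Finset.mem_range.mp hl
    omega
  have h1 : ∑ i ∈ range (k + 1), (-1) ^ (k - i) * (k.choose i : ℚ) *
      (1 / ((z : ℚ) - ((l + i : ℕ) : ℚ))) =
      (fwdDiff (1 : ℕ))^[k] (fun y : ℕ => 1 / ((z : ℚ) - y)) l := by
    rw [fwdDiff_iter_eq_sum_shift]
    refine Finset.sum_congr rfl fun i _ => ?_
    rw [zsmul_eq_mul]
    push_cast
    simp
  rw [h1, P6.fwd_cauchy z k l hl']
  ring

end Sq
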