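import Pool.Agent.R666.Sq.PieceP5
import Pool.Agent.R666.Sq.PieceP6

/-!
# Piece P7: the determinant
-/

namespace Sq

open Finset

namespace P7

theorem Vd_sq {k : ℕ} (x : Fin k → ℚ) : (Vd x) ^ 2 = (Matrix.vandermonde x).det ^ 2 := by
  rw [Matrix.det_vandermonde, Vd, ← Finset.prod_pow, ← Finset.prod_pow]
  refine Finset.prod_congr rfl fun i _ => ?_
  rw [← Finset.prod_pow, ← Finset.prod_pow]
  refine Finset.prod_congr rfl fun j _ => ?_
  ring

/-- `φ_0 = 1/(a-z)`, `φ_i = (a-z)^(i-1)`. -/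
def phi (n : ℕ) (z : ℚ) (i : Fin (n + 1)) (a : ℚ) : ℚ :=
  Fin.cases (motive := fun _ => ℚ) (1 / (a - z)) (fun j : Fin n => (a - z) ^ (j : ℕ)) i

theorem phi_mul (n : ℕ) (z : ℚ) (i : Fin (n + 1)) (a : ℚ) (h : a - z ≠ 0) :
    (a - z) * phi n z i a = (a - z) ^ (i : ℕ) := by
  refine Fin.cases ?_ (fun j => ?_) i
  · simp only [phi, Fin.cases_zero]
    rw [mul_one_div_cancel h]; simp
  · simp only [phi, Fin.cases_succ, Fin.val_succ]
    ring

theorem det_phi (n : ℕ) (z : ℚ) (x : Fin (n + 1) → ℚ) (h : ∀ i, x i - z ≠ 0) :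
    (∏ j, (x j - z)) * (Matrix.of fun i j => phi n z i (x j)).det =
      (Matrix.vandermonde x).det := by
  rw [← Matrix.det_mul_row, ← Matrix.det_transpose, ← Matrix.det_vandermonde_sub x z]
  congr 1
  ext i j
  simp only [Matrix.transpose_apply, Matrix.of_apply, Matrix.vandermonde_apply]
  exact phi_mul n z j (x i) (h i)

theorem det_psi (N n : ℕ) (t : ℚ) (x : Fin (n + 1) → ℚ) :
    (Matrix.of fun (i j : Fin (n + 1)) => (P N i t).eval (x j)).det =
      (Matrix.vandermonde x).det := by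
  rw [← Matrix.det_transpose, Matrix.det_eval_matrixOfPolynomials_eq_det_vandermonde x
    (fun i => P N i t) (fun i => (P_monic N i t).2) (fun i => (P_monic N i t).1)]
  rfl

theorem det_hess (n : ℕ) (G : Matrix (Fin (n + 1)) (Fin (n + 1)) ℚ)
    (h : ∀ (i : Fin n) (j : Fin (n + 1)), (i : ℕ) < j → G i.succ j = 0) :
    G.det = (-1) ^ n * G 0 (Fin.last n) * ∏ i : Fin n, G i.succ i.castSucc := by
  rw [Matrix.det_succ_column G (Fin.last n), Finset.sum_eq_single 0]
  · have h1 : (G.submatrix (Fin.succAbove 0) (Fin.last n).succAbove).det =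
        ∏ i : Fin n, G i.succ i.castSucc := by
      rw [Matrix.det_of_isLowerTriangular]
      · simp
      · intro i j hij
        simp only [Matrix.submatrix_apply, Fin.succAbove_zero, Fin.succAbove_last]
        exact h i j.castSucc (by simpa using hij)
    rw [h1]
    simp
  · intro i _ hi
    obtain ⟨j, rfl⟩ := Fin.exists_succ_eq_of_ne_zero hi
    rw [h j (Fin.last n) (by simp)]
    simp
  · intro h; exact absurd (Finset.mem_univ _) h

end P7

theorem kraw_det (m : ℕ) (hm : 1 ≤ m) (x : ℚ) :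
    ∑ l : Fin m → Fin (2 * m - 1), (∏ i, W (2 * m - 2) x (l i) * (1 / ((2 * m + 2 : ℚ) - (l i : ℕ))))
        * (Vd fun i => ((l i : ℕ) : ℚ)) ^ 2
      = m.factorial * (∏ j ∈ range m, (((2 * m - 2).descFactorial j : ℚ) * j.factorial)) *
        (x * (1 - x)) ^ (m.choose 2) *
        ∑ i ∈ range m, W (m - 1) x i * ((m + 2 - i).factorial : ℚ) /
          ((2 * m + 2 - i).factorial : ℚ) := by
  obtain ⟨n, rfl⟩ : ∃ n, m = n + 1 := ⟨m - 1, by omega⟩
  set N := 2 * (n + 1) - 2 with hN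
  set z : ℚ := 2 * ((n + 1 : ℕ) : ℚ) + 2 with hz
  have hNz : ∀ a : Fin (2 * (n + 1) - 1), ((a : ℕ) : ℚ) - z ≠ 0 := by
    intro a
    have h1 : (a : ℕ) < 2 * (n + 1) - 1 := a.2
    have h2 : (a : ℕ) < 2 * (n + 1) + 2 := by omega
    have h3 : ((a : ℕ) : ℚ) < z := by
      rw [hz]; exact_mod_cast h2
    exact (sub_neg.mpr h3).ne
  set G : Matrix (Fin (n + 1)) (Fin (n + 1)) ℚ := Matrix.of fun i j =>
    ∑ a : Fin (2 * (n + 1) - 1), W N x a * P7.phi n z i (a : ℕ) * (P N j x).eval ((a : ℕ) : ℚ)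
    with hG
  -- Andréief
  have hA := andreief (m := n + 1) (K := 2 * (n + 1) - 1) (fun a => W N x a)
    (fun i a => P7.phi n z i (a : ℕ)) (fun j a => (P N j x).eval ((a : ℕ) : ℚ))
  have hL : ∀ l : Fin (n + 1) → Fin (2 * (n + 1) - 1),
      (∏ i, W N x (l i) * (1 / (z - (l i : ℕ)))) * (Vd fun i => ((l i : ℕ) : ℚ)) ^ 2 =
      (-1) ^ (n + 1) * ((∏ i, W N x (l i)) *
        (Matrix.of fun (i j : Fin (n + 1)) => P7.phi n z i ((l j : ℕ) : ℚ)).det *
        (Matrix.of fun (i j : Fin (n + 1)) => (P N i x).eval ((l j : ℕ) : ℚ)).det) := by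
    intro l
    have h1 := P7.det_phi n z (fun j => ((l j : ℕ) : ℚ)) (fun i => hNz (l i))
    have h2 := P7.det_psi N n x (fun j => ((l j : ℕ) : ℚ))
    rw [P7.Vd_sq, h2, pow_two, ← h1]
    have h3 : ∏ i : Fin (n + 1), (1 / (z - ((l i : ℕ) : ℚ))) =
        (-1) ^ (n + 1) * (∏ i : Fin (n + 1), (((l i : ℕ) : ℚ) - z))⁻¹ := by
      rw [← Finset.prod_inv_distrib]
      rw [show ((-1 : ℚ)) ^ (n + 1) = ∏ _i : Fin (n + 1), (-1 : ℚ) by simp,
        ← Finset.prod_mul_distrib]
      refine Finset.prod_congr rfl fun i _ => ?_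
      have := hNz (l i)
      rw [← neg_sub, one_div, inv_neg]
      ring
    have h4 : ∏ i : Fin (n + 1), (((l i : ℕ) : ℚ) - z) ≠ 0 :=
      Finset.prod_ne_zero_iff.mpr fun i _ => hNz (l i)
    rw [Finset.prod_mul_distrib, h3]
    field_simp
  rw [Finset.sum_congr rfl fun l _ => hL l, ← Finset.mul_sum, hA]
  -- entries of G
  have hsum : ∀ f : ℕ → ℚ, ∑ a : Fin (2 * (n + 1) - 1), f (a : ℕ) = ∑ l ∈ range (N + 1), f l := by
    intro f
    rw [Fin.sum_univ_eq_sum_range f (2 * (n + 1) - 1)]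
    congr 2
  have hGs : ∀ (i : Fin n) (j : Fin (n + 1)), G i.succ j = ∑ l ∈ range (N + 1),
      W N x l * (((Polynomial.X - Polynomial.C z) ^ (i : ℕ)).eval (l : ℚ)) *
        (P N j x).eval (l : ℚ) := by
    intro i j
    refine Eq.trans ?_ (hsum (fun l => W N x l *
      (((Polynomial.X - Polynomial.C z) ^ (i : ℕ)).eval (l : ℚ)) * (P N j x).eval (l : ℚ)))
    simp [hG, P7.phi]
  have hdeg : ∀ i : ℕ, ((Polynomial.X - Polynomial.C z : Polynomial ℚ) ^ i).natDegree = i := by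
    intro i
    simp
  have hz0 : ∀ (i : Fin n) (j : Fin (n + 1)), (i : ℕ) < j → G i.succ j = 0 := by
    intro i j hij
    rw [hGs]
    exact P_orth N j (by have := j.2; omega) x _ (by rw [hdeg]; exact hij)
  have hdiag : ∀ i : Fin n, G i.succ i.castSucc =
      (N.descFactorial i : ℚ) * (i : ℕ).factorial * (x * (1 - x)) ^ (i : ℕ) := by
    intro i
    rw [hGs]
    exact P_norm N i (by have := i.2; omega) x _ (hdeg _)
      ((Polynomial.monic_X_sub_C z).pow _)
  have hcorner : G 0 (Fin.last n) = - ((N.descFactorial n : ℚ) * n.factorial *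
      (x * (1 - x)) ^ n * ∑ i ∈ range (n + 1), W n x i * ((n + 1 + 2 - i).factorial : ℚ) /
          ((2 * (n + 1) + 2 - i).factorial : ℚ)) := by
    have h1 := P_cauchy N n (2 * (n + 1) + 2) (by omega) (by omega) x
    rw [show N - n = n by omega] at h1
    have h2 : G 0 (Fin.last n) = - ∑ l ∈ range (N + 1),
        W N x l * (1 / (((2 * (n + 1) + 2 : ℕ) : ℚ) - l)) * (P N n x).eval (l : ℚ) := by
      rw [← hsum (fun l => W N x l * (1 / (((2 * (n + 1) + 2 : ℕ) : ℚ) - l)) *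
        (P N n x).eval (l : ℚ)), ← Finset.sum_neg_distrib]
      simp only [hG, Matrix.of_apply, P7.phi, Fin.cases_zero, Fin.val_last]
      refine Finset.sum_congr rfl fun a _ => ?_
      have h3 : ((2 * (n + 1) + 2 : ℕ) : ℚ) = z := by rw [hz]; push_cast; ring
      rw [h3, ← neg_sub z, one_div, one_div, inv_neg]
      ring
    rw [h2, h1]
    congr 2
    refine Finset.sum_congr rfl fun l hl => ?_
    have hl' := Finset.mem_range.mp hl
    rw [show 2 * (n + 1) + 2 - l - n - 1 = n + 1 + 2 - l by omega]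
  have hdet := P7.det_hess n G hz0
  rw [hcorner, Finset.prod_congr rfl fun i _ => hdiag i] at hdet
  have hGd : (Matrix.of fun i j => ∑ a : Fin (2 * (n + 1) - 1), (fun a : Fin (2 * (n + 1) - 1) =>
      W N x a) a * (fun (i : Fin (n + 1)) (a : Fin (2 * (n + 1) - 1)) =>
      P7.phi n z i (a : ℕ)) i a * (fun (j : Fin (n + 1)) (a : Fin (2 * (n + 1) - 1)) =>
      (P N j x).eval ((a : ℕ) : ℚ)) j a) = G := rfl
  rw [hGd, hdet]
  have hprod : ∏ i : Fin n, ((N.descFactorial i : ℚ) * (i : ℕ).factorial *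
      (x * (1 - x)) ^ (i : ℕ)) = (∏ j ∈ range n, ((N.descFactorial j : ℚ) * j.factorial)) *
      (x * (1 - x)) ^ (n.choose 2) := by
    rw [Fin.prod_univ_eq_prod_range (fun i => (N.descFactorial i : ℚ) * i.factorial *
      (x * (1 - x)) ^ i) n, Finset.prod_mul_distrib, Finset.prod_pow_eq_pow_sum,
      Finset.sum_range_id, Nat.choose_two_right]
  rw [hprod, Finset.prod_range_succ]
  have hch : (n + 1).choose 2 = n + n.choose 2 := by
    rw [Nat.choose_succ_succ' n 1, Nat.choose_one_right]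
  rw [hch, pow_add (x * (1 - x)) n, show n + 1 - 1 = n by omega]
  have hsign : ((-1 : ℚ)) ^ (n + 1) * (-1) ^ n = -1 := by
    rw [pow_succ, mul_assoc, mul_comm (-1 : ℚ), ← mul_assoc, ← mul_pow]
    norm_num
  set S := ∑ i ∈ range (n + 1), W n x i * ((n + 1 + 2 - i).factorial : ℚ) /
          ((2 * (n + 1) + 2 - i).factorial : ℚ) with hS
  calc (-1 : ℚ) ^ (n + 1) * (((n + 1).factorial : ℚ) * ((-1) ^ n *
        -((N.descFactorial n : ℚ) * n.factorial * (x * (1 - x)) ^ n * S) *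
        ((∏ j ∈ range n, ((N.descFactorial j : ℚ) * j.factorial)) *
          (x * (1 - x)) ^ (n.choose 2))))
      = ((-1 : ℚ) ^ (n + 1) * (-1) ^ n) * (-1) * (((n + 1).factorial : ℚ) *
        ((∏ j ∈ range n, ((N.descFactorial j : ℚ) * j.factorial)) *
          ((N.descFactorial n : ℚ) * n.factorial)) *
        ((x * (1 - x)) ^ n * (x * (1 - x)) ^ (n.choose 2)) * S) := by ring
    _ = _ := by rw [hsign]; ring

end Sq
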