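import Pool.Agent.R666.Sq.Defs

namespace Sq

open Finset

namespace P8

lemma sum3 (K : ℕ) : ∑ i ∈ range K, (((i : ℚ) + 1) * (i + 2) * (i + 3)) =
    K * (K + 1) * (K + 2) * (K + 3) / 4 := by
  induction K with
  | zero => simp
  | succ K ih => rw [Finset.sum_range_succ, ih]; push_cast; ring

lemma base (M : ℕ) : ∑ i ∈ range (M + 1), (M.choose i : ℚ) * (M - i).factorial *
    (M + 4 + i).factorial * (i + 3).factorial / (M + 4 + i).factorial =
      (M + 2).factorial * (M + 4).factorial / (2 * (M + 2).factorial * 1 * 2) := by
  have h : ∀ i ∈ range (M + 1), (M.choose i : ℚ) * (M - i).factorial *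
    (M + 4 + i).factorial * (i + 3).factorial / (M + 4 + i).factorial =
      M.factorial * (((i : ℚ) + 1) * (i + 2) * (i + 3)) := by
    intro i hi
    have hi' : i ≤ M := by have := Finset.mem_range.1 hi; omega
    have h1 := Nat.choose_mul_factorial_mul_factorial hi'
    have h2 : ((M.choose i : ℕ) : ℚ) * i.factorial * (M - i).factorial = M.factorial := by
      exact_mod_cast h1
    have e3 : ((i + 3).factorial : ℚ) = (i + 3) * (i + 2) * (i + 1) * i.factorial := by
      rw [Nat.factorial_succ, Nat.factorial_succ, Nat.factorial_succ]; push_cast; ring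
    have h4 : ((M + 4 + i).factorial : ℚ) ≠ 0 := by positivity
    rw [e3, ← h2]
    field_simp
  rw [Finset.sum_congr rfl h, ← Finset.mul_sum, sum3]
  have e4 : ((M + 4).factorial : ℚ) = (M + 4) * (M + 3) * (M + 2) * (M + 1) * M.factorial := by
    rw [Nat.factorial_succ, Nat.factorial_succ, Nat.factorial_succ, Nat.factorial_succ]
    push_cast; ring
  have h4 : ((M + 2).factorial : ℚ) ≠ 0 := by positivity
  rw [e4]
  field_simp
  push_cast
  ring

end P8

theorem dixon (M A : ℕ) :
    ∑ i ∈ range (M + 1), (M.choose i : ℚ) * (A + M - i).factorial * (A + M + 4 + i).factorial *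
        (i + 3).factorial / (M + 4 + i).factorial =
      (A + M + 2).factorial * (A + M + 4).factorial /
        (2 * (M + 2).factorial * (A + 1) * (A + 2)) := by
  induction A with
  | zero =>
    have := P8.base M
    simp only [Nat.zero_add, Nat.cast_zero, zero_add]
    rw [this]
  | succ A ih =>
    set G : ℕ → ℚ := fun i => (i : ℚ) * (M.choose i : ℚ) * (A + M + 1 - i).factorial *
      (A + M + 4 + i).factorial * (i + 3).factorial / (2 * (M + 3 + i).factorial) with hG
    have key : ∀ i ∈ range (M + 1), ((A : ℚ) + 3) * ((M.choose i : ℚ) *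
        (A + 1 + M - i).factorial * (A + 1 + M + 4 + i).factorial *
        (i + 3).factorial / (M + 4 + i).factorial) =
        (A + 1) * (A + M + 3) * (A + M + 5) * ((M.choose i : ℚ) * (A + M - i).factorial *
        (A + M + 4 + i).factorial * (i + 3).factorial / (M + 4 + i).factorial) +
        (G (i + 1) - G i) := by
      intro i hi
      have hi' : i ≤ M := by have := Finset.mem_range.1 hi; omega
      obtain ⟨d, rfl⟩ := Nat.exists_eq_add_of_le hi'
      have c1 : ((i + d).choose (i + 1) : ℚ) * (i + 1) = (i + d).choose i * d := by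
        have := Nat.choose_succ_right_eq (i + d) i
        have e : i + d - i = d := by omega
        rw [e] at this
        exact_mod_cast this
      have a1 : A + 1 + (i + d) - i = A + d + 1 := by omega
      have a2 : A + (i + d) - i = A + d := by omega
      have a3 : A + (i + d) + 1 - (i + 1) = A + d := by omega
      have a4 : A + (i + d) + 1 - i = A + d + 1 := by omega
      have a5 : A + 1 + (i + d) + 4 + i = (A + (i + d) + 4 + i) + 1 := by ring
      have a6 : A + (i + d) + 4 + (i + 1) = (A + (i + d) + 4 + i) + 1 := by ring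
      have a7 : i + 1 + 3 = (i + 3) + 1 := by ring
      have a8 : (i + d) + 3 + (i + 1) = ((i + d) + 3 + i) + 1 := by ring
      have a9 : (i + d) + 4 + i = ((i + d) + 3 + i) + 1 := by ring
      simp only [hG]
      rw [a1, a2, a3, a4, a5, a6, a7, a8, a9, Nat.factorial_succ (A + d),
        Nat.factorial_succ (A + (i + d) + 4 + i), Nat.factorial_succ (i + 3),
        Nat.factorial_succ ((i + d) + 3 + i)]
      have h1 : (((i + d) + 3 + i).factorial : ℚ) ≠ 0 := by positivity
      have h2 : ((i : ℚ) + d + 3 + i + 1) ≠ 0 := by positivity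
      have c2 : ((i + d).choose (i + 1) : ℚ) = (i + d).choose i * d / (i + 1) := by
        rw [eq_div_iff (by positivity)]; exact c1
      push_cast
      rw [c2]
      generalize (((i + d) + 3 + i).factorial : ℚ) = t at *
      field_simp
      ring
    have hs := Finset.sum_congr rfl key
    rw [← Finset.mul_sum, Finset.sum_add_distrib, ← Finset.mul_sum, Finset.sum_range_sub, ih] at hs
    have g0 : G 0 = 0 := by simp [hG]
    have g1 : G (M + 1) = 0 := by simp [hG]
    rw [g0, g1] at hs
    have hA : ((A : ℚ) + 3) ≠ 0 := by positivity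
    have b1 : A + 1 + M + 2 = (A + M + 2) + 1 := by ring
    have b2 : A + 1 + M + 4 = (A + M + 4) + 1 := by ring
    rw [b1, b2, Nat.factorial_succ (A + M + 2), Nat.factorial_succ (A + M + 4)]
    rw [b2] at hs
    apply mul_left_cancel₀ hA
    rw [hs]
    push_cast
    have h3 : ((M + 2).factorial : ℚ) ≠ 0 := by positivity
    field_simp
    ring

end Sq
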