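import Pool.Agent.R666.Sq.PieceP1
import Pool.Agent.R666.Sq.PieceP2
import Pool.Agent.R666.Sq.PieceP3
import Pool.Agent.R666.Sq.PieceP4
import Pool.Agent.R666.Sq.PieceP5
import Pool.Agent.R666.Sq.PieceP6
import Pool.Agent.R666.Sq.PieceP7
import Pool.Agent.R666.Sq.PieceP8

namespace Sq

open Finset

theorem e_D (m : ℕ) (hm : 1 ≤ m) :
    e (D (m + 2)) = ∑ lam : Fin m → Fin m with Antitone lam,
      e (Y (m + 2) (lamA lam)) * e (Y (m + 1) (lamB lam)) :=
  P3.e_D' e_split e_dual m hm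

theorem term_eq (m : ℕ) (hm : 1 ≤ m) (lam : Fin m → Fin m) (h : Antitone lam) :
    (e (Y (m + 2) (lamA lam)) * e (Y (m + 1) (lamB lam)) : ℚ) =
      T (fun i : Fin m => (lam i : ℕ) + (m - 1 - (i : ℕ))) /
        ((2 * m + 1).factorial * (2 * m - 1).factorial) :=
  P4.term_eq' e_Y m hm lam h

end Sq
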