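import Mathlib

/-!
# SYT of the square with two corner cells removed (MP_6a062b_co): definitions
-/

namespace Sq

open Finset

/-- The cells `(i,j)`, `1 ≤ i,j ≤ n`, of the `n × n` square without the two rightmost cells of
the top row. -/
def D (n : ℕ) : Finset (ℕ × ℕ) := (Icc 1 n ×ˢ Icc 1 n) \ {(1, n - 1), (1, n)}

/-- Standard Young tableaux of shape `D n`: bijections `T : D n → {0,…,n^2-3}` which increase along
rows and down columns. -/
def SYT (n : ℕ) : Type :=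
  {T : {x // x ∈ D n} ≃ Fin (n ^ 2 - 2) //
    (∀ (i j : ℕ) (h : (i, j) ∈ D n) (h' : (i, j + 1) ∈ D n), T ⟨(i, j), h⟩ < T ⟨(i, j + 1), h'⟩) ∧
    (∀ (i j : ℕ) (h : (i, j) ∈ D n) (h' : (i + 1, j) ∈ D n), T ⟨(i, j), h⟩ < T ⟨(i + 1, j), h'⟩)}

/-- Linear extensions, as lists, of a finite set of cells with the product order of `ℕ × ℕ`. -/
def LEx (S : Finset (ℕ × ℕ)) : Set (List (ℕ × ℕ)) :=
  {l | l.Nodup ∧ l.toFinset = S ∧ l.Pairwise fun a b => ¬ b ≤ a}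

/-- Number of linear extensions. -/
noncomputable def e (S : Finset (ℕ × ℕ)) : ℕ := (LEx S).ncard

/-- Young diagram with rows of lengths `lam 0, …, lam (k-1)` (rows numbered `1, …, k`). -/
def Y (k : ℕ) (lam : Fin k → ℕ) : Finset (ℕ × ℕ) :=
  univ.biUnion fun i : Fin k => (Icc 1 (lam i)).image fun j => ((i : ℕ) + 1, j)

/-- Vandermonde product. -/
def Vd {k : ℕ} (x : Fin k → ℚ) : ℚ := ∏ i : Fin k, ∏ j ∈ Ioi i, (x i - x j)

/-- The shape `(m, m-1, lam 0, …, lam (m-1))`. -/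
def lamA {m : ℕ} (lam : Fin m → Fin m) : Fin (m + 2) → ℕ :=
  Fin.cons m (Fin.cons (m - 1) fun i => (lam i : ℕ))

/-- The shape `(m + 2 - lam (m-1), …, m + 2 - lam 0, 2)`. -/
def lamB {m : ℕ} (lam : Fin m → Fin m) : Fin (m + 1) → ℕ :=
  Fin.snoc (fun r : Fin m => m + 2 - (lam (Fin.rev r) : ℕ)) 2

/-- The summand, as a function of the shifted parts. -/
def T {m : ℕ} (l : Fin m → ℕ) : ℚ :=
  ((2 * m - 1 + ∑ i, l i - m.choose 2).factorial : ℚ) *
    ((m ^ 2 + 2 * m + 2 + m.choose 2 - ∑ i, l i).factorial : ℚ) *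
    (Vd fun i => (l i : ℚ)) ^ 2 *
    ∏ i, (1 / ((l i).factorial * (2 * m - 2 - l i).factorial * (2 * m + 2 - l i : ℕ)) : ℚ)

open Polynomial in
/-- Monic Krawtchouk polynomial of degree `k`, parameters `N`, `x`. -/
noncomputable def P (N k : ℕ) (x : ℚ) : Polynomial ℚ :=
  ∑ i ∈ range (k + 1), C ((-1) ^ (k - i) * (k.choose i : ℚ) * x ^ (k - i) * (1 - x) ^ i) *
    (descPochhammer ℚ i * (descPochhammer ℚ (k - i)).comp (C (N : ℚ) - X))

/-- Binomial weight. -/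
def W (N : ℕ) (x : ℚ) (l : ℕ) : ℚ := (N.choose l : ℚ) * x ^ l * (1 - x) ^ (N - l)

/-- `F_m = 0! 1! ⋯ (m-1)!`. -/
def F (m : ℕ) : ℕ := ∏ i ∈ range m, i.factorial

end Sq
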