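import Pool.Agent.R666.Sq.Defs

/-!
# Piece P1 for MP_6a062b_co: linear extensions as lists
-/

namespace Sq

open Finset

namespace P1

theorem fin_LEx (S : Finset (ℕ × ℕ)) : (LEx S).Finite := by
  refine (S.toList.permutations.toFinset.finite_toSet).subset ?_
  rintro l ⟨h1, h2, -⟩
  simp only [List.coe_toFinset, List.mem_permutations, Set.mem_ofPred_eq]
  apply List.perm_of_nodup_nodup_toFinset_eq h1 S.nodup_toList
  rw [h2, Finset.toList_toFinset]

/-- the linear extensions as a finset -/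
noncomputable def LF (S : Finset (ℕ × ℕ)) : Finset (List (ℕ × ℕ)) := (fin_LEx S).toFinset

theorem mem_LF {S : Finset (ℕ × ℕ)} {l : List (ℕ × ℕ)} : l ∈ LF S ↔ l ∈ LEx S := by
  simp [LF]

theorem card_LF (S : Finset (ℕ × ℕ)) : e S = (LF S).card := by
  unfold e LF
  rw [Set.ncard_eq_toFinset_card _ (fin_LEx S)]

theorem concat_mem (S : Finset (ℕ × ℕ)) (x : ℕ × ℕ) (l : List (ℕ × ℕ)) :
    l ++ [x] ∈ LEx S ↔ x ∈ S ∧ (∀ y ∈ S, x ≤ y → y = x) ∧ l ∈ LEx (S.erase x) := by
  constructor
  · rintro ⟨h1, h2, h3⟩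
    rw [List.nodup_append] at h1
    rw [List.pairwise_append] at h3
    have hx : x ∉ l := fun h => h1.2.2 x h x (by simp) rfl
    have hS : S = insert x l.toFinset := by
      rw [← h2]
      ext y
      simp
    refine ⟨by rw [hS]; simp, ?_, h1.1, ?_, h3.1⟩
    · intro y hy hxy
      rw [hS, Finset.mem_insert, List.mem_toFinset] at hy
      rcases hy with hy | hy
      · exact hy
      · exact absurd hxy (h3.2.2 y hy x (by simp))
    · rw [hS, Finset.erase_insert]
      simpa using hx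
  · rintro ⟨hx, hm, h1, h2, h3⟩
    have hx' : x ∉ l := by
      intro h
      have : x ∈ l.toFinset := by simpa using h
      rw [h2] at this
      simp at this
    refine ⟨?_, ?_, ?_⟩
    · rw [List.nodup_append]
      refine ⟨h1, by simp, ?_⟩
      intro a ha b hb hab
      rw [List.mem_singleton] at hb
      subst hb
      subst hab
      exact hx' ha
    · rw [List.toFinset_append, h2]
      ext y
      simp only [List.toFinset_cons, List.toFinset_nil, Finset.mem_union, Finset.mem_erase,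
        Finset.mem_insert, Finset.notMem_empty, or_false]
      constructor
      · rintro (h | rfl)
        · exact h.2
        · exact hx
      · intro h
        by_cases hy : y = x
        · exact Or.inr hy
        · exact Or.inl ⟨hy, h⟩
    · rw [List.pairwise_append]
      refine ⟨h3, by simp, ?_⟩
      intro a ha b hb hle
      rw [List.mem_singleton] at hb
      subst hb
      have ha' : a ∈ S.erase b := by rw [← h2]; simpa using ha
      rw [Finset.mem_erase] at ha'
      exact ha'.1 (hm a ha'.2 hle)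

theorem split_mem (S : Finset (ℕ × ℕ)) (p : ℕ × ℕ) (l₁ l₂ : List (ℕ × ℕ)) :
    l₁ ++ p :: l₂ ∈ LEx S ↔ p ∈ S ∧ l₁.toFinset ⊆ S ∧ p ∉ l₁.toFinset ∧
      (∀ a ∈ l₁.toFinset, ∀ b ∈ S \ l₁.toFinset, ¬ b ≤ a) ∧
      (∀ b ∈ (S \ l₁.toFinset).erase p, ¬ b ≤ p) ∧
      l₁ ∈ LEx l₁.toFinset ∧ l₂ ∈ LEx ((S \ l₁.toFinset).erase p) := by
  constructor
  · rintro ⟨h1, h2, h3⟩
    rw [List.nodup_append, List.nodup_cons] at h1
    rw [List.pairwise_append, List.pairwise_cons] at h3
    obtain ⟨n1, ⟨n2, n3⟩, n4⟩ := h1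
    obtain ⟨q1, ⟨q2, q3⟩, q4⟩ := h3
    have hS : ∀ y, y ∈ S ↔ y ∈ l₁ ∨ y = p ∨ y ∈ l₂ := by
      intro y
      rw [← h2]
      simp only [List.toFinset_append, List.toFinset_cons, Finset.mem_union, List.mem_toFinset,
        Finset.mem_insert]
    have hp : p ∉ l₁ := fun h => n4 p h p (by simp) rfl
    have hd : ∀ y, y ∈ (S \ l₁.toFinset).erase p ↔ y ∈ l₂ := by
      intro y
      simp only [Finset.mem_erase, Finset.mem_sdiff, hS, List.mem_toFinset]
      constructor
      · rintro ⟨h4, h5 | h5 | h5, h6⟩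
        · exact absurd h5 h6
        · exact absurd h5 h4
        · exact h5
      · intro h4
        refine ⟨?_, Or.inr (Or.inr h4), ?_⟩
        · rintro rfl
          exact n2 h4
        · intro h5
          exact n4 y h5 y (by simp [h4]) rfl
    refine ⟨(hS p).2 (Or.inr (Or.inl rfl)), ?_, by simpa using hp, ?_, ?_, ⟨n1, rfl, q1⟩,
      n3, ?_, q3⟩
    · intro y hy
      rw [List.mem_toFinset] at hy
      exact (hS y).2 (Or.inl hy)
    · intro a ha b hb
      rw [List.mem_toFinset] at ha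
      rw [Finset.mem_sdiff, hS, List.mem_toFinset] at hb
      apply q4 a ha b
      rcases hb.1 with h | h | h
      · exact absurd h hb.2
      · simp [h]
      · simp [h]
    · intro b hb
      exact q2 b ((hd b).1 hb)
    · ext y
      rw [hd, List.mem_toFinset]
  · rintro ⟨hp, hsub, hpn, hab, hb, ⟨h1, -, h2⟩, h3, h4, h5⟩
    have hl2 : ∀ y, y ∈ l₂ ↔ y ≠ p ∧ y ∈ S ∧ y ∉ l₁ := by
      intro y
      rw [← List.mem_toFinset, h4]
      simp
    refine ⟨?_, ?_, ?_⟩
    · rw [List.nodup_append, List.nodup_cons]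
      refine ⟨h1, ⟨fun h => ((hl2 p).1 h).1 rfl, h3⟩, ?_⟩
      intro a ha b hb' hab'
      subst hab'
      rw [List.mem_cons] at hb'
      rcases hb' with h | h
      · subst h
        exact hpn (by simpa using ha)
      · exact ((hl2 a).1 h).2.2 ha
    · ext y
      rw [List.mem_toFinset, List.mem_append, List.mem_cons, hl2]
      constructor
      · rintro (h | h | h)
        · exact hsub (by simpa using h)
        · rw [h]; exact hp
        · exact h.2.1
      · intro h
        by_cases h6 : y ∈ l₁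
        · exact Or.inl h6
        · by_cases h7 : y = p
          · exact Or.inr (Or.inl h7)
          · exact Or.inr (Or.inr ⟨h7, h, h6⟩)
    · rw [List.pairwise_append, List.pairwise_cons]
      refine ⟨h2, ⟨?_, h5⟩, ?_⟩
      · intro b hb'
        apply hb
        rw [← h4]
        simpa using hb'
      · intro a ha b hb'
        apply hab a (by simpa using ha)
        rw [Finset.mem_sdiff]
        rw [List.mem_cons] at hb'
        rcases hb' with h | h
        · rw [h]
          exact ⟨hp, hpn⟩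
        · have := (hl2 b).1 h
          exact ⟨this.2.1, by simpa using this.2.2⟩

theorem dual_mem (S : Finset (ℕ × ℕ)) (a b : ℕ) (h : ∀ x ∈ S, x.1 ≤ a ∧ x.2 ≤ b)
    (l : List (ℕ × ℕ)) (hl : l ∈ LEx S) :
    (l.map fun x => (a - x.1, b - x.2)).reverse ∈ LEx (S.image fun x => (a - x.1, b - x.2)) := by
  obtain ⟨h1, h2, h3⟩ := hl
  have hmem : ∀ x ∈ l, x ∈ S := by
    intro x hx
    rw [← h2]
    simpa using hx
  refine ⟨?_, ?_, ?_⟩
  · rw [List.nodup_reverse]
    apply List.Nodup.map_on _ h1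
    intro x hx y hy hxy
    have h4 := h x (hmem x hx)
    have h5 := h y (hmem y hy)
    simp only [Prod.mk.injEq] at hxy
    ext <;> omega
  · rw [← h2]
    ext y
    simp
  · rw [List.pairwise_reverse, List.pairwise_map]
    apply List.Pairwise.imp_of_mem _ h3
    intro x y hx hy hxy hle
    apply hxy
    have h4 := h x (hmem x hx)
    have h5 := h y (hmem y hy)
    rw [Prod.le_def] at hle ⊢
    simp only at hle
    constructor <;> omega

end P1

open P1

theorem e_empty : e ∅ = 1 := by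
  unfold e
  have : LEx ∅ = {[]} := by
    ext l
    rw [Set.mem_singleton_iff]
    constructor
    · rintro ⟨-, h, -⟩
      simpa using h
    · rintro rfl
      exact ⟨by simp, by simp, by simp⟩
  rw [this, Set.ncard_singleton]

theorem e_max (S : Finset (ℕ × ℕ)) (hS : S.Nonempty) :
    e S = ∑ x ∈ S.filter (fun x => ∀ y ∈ S, x ≤ y → y = x), e (S.erase x) := by
  classical
  simp only [card_LF]
  rw [← Finset.card_sigma]
  symm
  apply Finset.card_bij (fun (z : (Σ _ : ℕ × ℕ, List (ℕ × ℕ))) _ => z.2 ++ [z.1])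
  · rintro ⟨x, l⟩ hz
    rw [Finset.mem_sigma, Finset.mem_filter, mem_LF] at hz
    rw [mem_LF, concat_mem]
    exact ⟨hz.1.1, hz.1.2, hz.2⟩
  · rintro ⟨x, l⟩ _ ⟨y, m⟩ _ h
    have := List.append_inj' h rfl
    simp only [List.cons.injEq, and_true] at this
    obtain ⟨rfl, rfl⟩ := this
    rfl
  · intro l hl
    rw [mem_LF] at hl
    have hne : l ≠ [] := by
      rintro rfl
      obtain ⟨x, hx⟩ := hS
      have := hl.2.1
      rw [← this] at hx
      simp at hx
    have hdec := List.dropLast_append_getLast hne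
    rw [← hdec, concat_mem] at hl
    refine ⟨⟨l.getLast hne, l.dropLast⟩, ?_, hdec⟩
    rw [Finset.mem_sigma, Finset.mem_filter, mem_LF]
    exact ⟨⟨hl.1, hl.2.1⟩, hl.2.2⟩

theorem e_dual (S : Finset (ℕ × ℕ)) (a b : ℕ) (h : ∀ x ∈ S, x.1 ≤ a ∧ x.2 ≤ b) :
    e (S.image fun x => (a - x.1, b - x.2)) = e S := by
  classical
  rw [card_LF, card_LF]
  symm
  have hinv : ∀ S : Finset (ℕ × ℕ), (∀ x ∈ S, x.1 ≤ a ∧ x.2 ≤ b) → ∀ l ∈ LEx S,
      (((l.map fun x => (a - x.1, b - x.2)).reverse).map fun x => (a - x.1, b - x.2)).reverse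
        = l := by
    intro S h l hl
    rw [List.map_reverse, List.reverse_reverse, List.map_map]
    conv_rhs => rw [← List.map_id l]
    apply List.map_congr_left
    intro x hx
    have hxS : x ∈ S := by
      rw [← hl.2.1]
      simpa using hx
    have := h x hxS
    simp only [Function.comp, id]
    ext <;> simp only <;> omega
  apply Finset.card_bij (fun l _ => (l.map fun x : ℕ × ℕ => (a - x.1, b - x.2)).reverse)
  · intro l hl
    rw [mem_LF] at hl ⊢
    exact dual_mem S a b h l hl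
  · intro l hl m hm hlm
    rw [mem_LF] at hl hm
    rw [← hinv S h l hl, ← hinv S h m hm, hlm]
  · intro l hl
    rw [mem_LF] at hl
    have hb : ∀ x ∈ S.image (fun x : ℕ × ℕ => (a - x.1, b - x.2)), x.1 ≤ a ∧ x.2 ≤ b := by
      intro x hx
      rw [Finset.mem_image] at hx
      obtain ⟨y, -, rfl⟩ := hx
      exact ⟨Nat.sub_le _ _, Nat.sub_le _ _⟩
    have h1 := dual_mem _ a b hb l hl
    have h2 : (S.image (fun x : ℕ × ℕ => (a - x.1, b - x.2))).image
        (fun x : ℕ × ℕ => (a - x.1, b - x.2)) = S := by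
      rw [Finset.image_image]
      conv_rhs => rw [← Finset.image_id (s := S)]
      apply Finset.image_congr
      intro x hx
      have := h x hx
      simp only [Function.comp, id]
      ext <;> simp only <;> omega
    rw [h2] at h1
    refine ⟨_, mem_LF.2 h1, hinv _ hb l hl⟩

theorem e_split (S : Finset (ℕ × ℕ)) (p : ℕ × ℕ) (hp : p ∈ S) :
    e S = ∑ I ∈ S.powerset.filter (fun I => p ∉ I ∧ (∀ a ∈ I, ∀ b ∈ S \ I, ¬ b ≤ a) ∧
      ∀ b ∈ (S \ I).erase p, ¬ b ≤ p), e I * e ((S \ I).erase p) := by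
  classical
  simp only [card_LF]
  simp only [← Finset.card_product]
  rw [← Finset.card_sigma]
  symm
  apply Finset.card_bij (fun (z : (Σ _ : Finset (ℕ × ℕ), List (ℕ × ℕ) × List (ℕ × ℕ))) _ =>
    z.2.1 ++ p :: z.2.2)
  · rintro ⟨I, l, m⟩ hz
    rw [Finset.mem_sigma, Finset.mem_filter, Finset.mem_product, mem_LF, mem_LF,
      Finset.mem_powerset] at hz
    obtain ⟨⟨h1, h2, h3, h4⟩, h5, h6⟩ := hz
    simp only at h1 h2 h3 h4 h5 h6
    rw [mem_LF, split_mem]
    have h7 : l.toFinset = I := h5.2.1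
    simp only [h7]
    exact ⟨hp, h1, h2, h3, h4, h5, h6⟩
  · rintro ⟨I, l, m⟩ hz ⟨I', l', m'⟩ hz' h
    rw [Finset.mem_sigma, Finset.mem_filter, Finset.mem_product, mem_LF, mem_LF,
      Finset.mem_powerset] at hz hz'
    obtain ⟨⟨h1, h2, h3, h4⟩, h5, h6⟩ := hz
    obtain ⟨⟨h1', h2', h3', h4'⟩, h5', h6'⟩ := hz'
    simp only at h1 h2 h3 h4 h5 h6 h1' h2' h3' h4' h5' h6' h
    have e1 : p ∉ l := by rw [← List.mem_toFinset, h5.2.1]; exact h2
    have e2 : p ∉ m := by rw [← List.mem_toFinset, h6.2.1]; simp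
    have := (List.append_cons_inj_of_notMem e1 e2).1 h
    obtain ⟨rfl, -, rfl⟩ := this
    have : I = I' := by rw [← h5.2.1, ← h5'.2.1]
    subst this
    rfl
  · intro l hl
    rw [mem_LF] at hl
    have hpl : p ∈ l := by
      rw [← List.mem_toFinset, hl.2.1]
      exact hp
    obtain ⟨l₁, l₂, rfl⟩ := List.append_of_mem hpl
    rw [split_mem] at hl
    obtain ⟨h1, h2, h3, h4, h5, h6, h7⟩ := hl
    refine ⟨⟨l₁.toFinset, l₁, l₂⟩, ?_, rfl⟩
    rw [Finset.mem_sigma, Finset.mem_filter, Finset.mem_product, mem_LF, mem_LF,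
      Finset.mem_powerset]
    exact ⟨⟨h2, h3, h4, h5⟩, h6, h7⟩

namespace P1

theorem mem_D (n i j : ℕ) : (i, j) ∈ D n ↔
    (1 ≤ i ∧ i ≤ n) ∧ (1 ≤ j ∧ j ≤ n) ∧ ¬ (i = 1 ∧ j = n - 1) ∧ ¬ (i = 1 ∧ j = n) := by
  simp only [D, Finset.mem_sdiff, Finset.mem_product, Finset.mem_Icc, Finset.mem_insert,
    Finset.mem_singleton, Prod.mk.injEq, not_or, and_assoc]

theorem card_D (n : ℕ) (hn : 2 ≤ n) : (D n).card = n ^ 2 - 2 := by
  unfold D
  rw [Finset.card_sdiff_of_subset, Finset.card_product, Nat.card_Icc, Finset.card_pair]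
  · congr 1
    simp [sq]
  · intro h
    simp only [Prod.mk.injEq, true_and] at h
    omega
  · intro x hx
    simp only [Finset.mem_insert, Finset.mem_singleton] at hx
    rw [Finset.mem_product, Finset.mem_Icc, Finset.mem_Icc]
    rcases hx with rfl | rfl <;> simp only <;> omega

theorem mono_col (n : ℕ) (T : {x // x ∈ D n} ≃ Fin (n ^ 2 - 2))
    (hc : ∀ (i j : ℕ) (h : (i, j) ∈ D n) (h' : (i + 1, j) ∈ D n),
      T ⟨(i, j), h⟩ < T ⟨(i + 1, j), h'⟩) (i j : ℕ) (h : (i, j) ∈ D n) :
    ∀ (d : ℕ) (h' : (i + d, j) ∈ D n), T ⟨(i, j), h⟩ ≤ T ⟨(i + d, j), h'⟩ := by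
  intro d
  induction d with
  | zero => intro h'; exact le_rfl
  | succ d ih =>
    intro h'
    have h'' : (i + d, j) ∈ D n := by
      rcases Nat.eq_zero_or_pos d with rfl | hd
      · exact h
      · rw [mem_D] at h h' ⊢
        omega
    exact (ih h'').trans (hc (i + d) j h'' h').le

theorem mono_row (n : ℕ) (T : {x // x ∈ D n} ≃ Fin (n ^ 2 - 2))
    (hr : ∀ (i j : ℕ) (h : (i, j) ∈ D n) (h' : (i, j + 1) ∈ D n),
      T ⟨(i, j), h⟩ < T ⟨(i, j + 1), h'⟩) (i j : ℕ) (h : (i, j) ∈ D n) :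
    ∀ (d : ℕ) (h' : (i, j + d) ∈ D n), T ⟨(i, j), h⟩ ≤ T ⟨(i, j + d), h'⟩ := by
  intro d
  induction d with
  | zero => intro h'; exact le_rfl
  | succ d ih =>
    intro h'
    have h'' : (i, j + d) ∈ D n := by
      rw [mem_D] at h h' ⊢
      omega
    exact (ih h'').trans (hr i (j + d) h'' h').le

theorem mono_T (n : ℕ) (T : {x // x ∈ D n} ≃ Fin (n ^ 2 - 2))
    (hr : ∀ (i j : ℕ) (h : (i, j) ∈ D n) (h' : (i, j + 1) ∈ D n),
      T ⟨(i, j), h⟩ < T ⟨(i, j + 1), h'⟩)
    (hc : ∀ (i j : ℕ) (h : (i, j) ∈ D n) (h' : (i + 1, j) ∈ D n),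
      T ⟨(i, j), h⟩ < T ⟨(i + 1, j), h'⟩) (x y : {x // x ∈ D n}) (hxy : x.1 ≤ y.1) :
    T x ≤ T y := by
  obtain ⟨⟨i, j⟩, hx⟩ := x
  obtain ⟨⟨i', j'⟩, hy⟩ := y
  rw [Prod.le_def] at hxy
  simp only at hxy
  obtain ⟨a, rfl⟩ := Nat.exists_eq_add_of_le hxy.1
  obtain ⟨b, rfl⟩ := Nat.exists_eq_add_of_le hxy.2
  have hz : (i + a, j) ∈ D n := by
    rcases Nat.eq_zero_or_pos a with rfl | ha
    · exact hx
    · rw [mem_D] at hx hy ⊢
      omega
  exact (mono_col n T hc i j hx a hz).trans (mono_row n T hr (i + a) j hz b hy)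

theorem list_mem (n : ℕ) (T : SYT n) :
    List.ofFn (fun k => ((T.1.symm k : {x // x ∈ D n}) : ℕ × ℕ)) ∈ LEx (D n) := by
  refine ⟨?_, ?_, ?_⟩
  · rw [List.nodup_ofFn]
    intro a b hab
    exact T.1.symm.injective (Subtype.ext hab)
  · ext x
    rw [List.mem_toFinset, List.mem_ofFn]
    constructor
    · rintro ⟨k, rfl⟩
      exact (T.1.symm k).2
    · intro hx
      refine ⟨T.1 ⟨x, hx⟩, ?_⟩
      rw [Equiv.symm_apply_apply]
  · rw [List.pairwise_ofFn]
    intro i j hij hle
    have := mono_T n T.1 T.2.1 T.2.2 (T.1.symm j) (T.1.symm i) hle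
    rw [Equiv.apply_symm_apply, Equiv.apply_symm_apply] at this
    exact absurd hij (not_lt.2 this)

end P1

theorem card_SYT (n : ℕ) (hn : 2 ≤ n) : Nat.card (SYT n) = e (D n) := by
  unfold e
  rw [← Nat.card_coe_set_eq]
  apply Nat.card_eq_of_bijective (fun T : SYT n =>
    (⟨List.ofFn (fun k => ((T.1.symm k : {x // x ∈ D n}) : ℕ × ℕ)), list_mem n T⟩ : LEx (D n)))
  constructor
  · intro T T' h
    have h1 := List.ofFn_injective (congrArg Subtype.val h)
    apply Subtype.ext
    apply Equiv.symm_bijective.injective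
    apply Equiv.ext
    intro k
    exact Subtype.ext (congrFun h1 k)
  · rintro ⟨l, h1, h2, h3⟩
    have hlen : n ^ 2 - 2 = l.length := by
      rw [← card_D n hn, ← h2, List.toFinset_card_of_nodup h1]
    have key : ∀ (m : ℕ) (h : m = l.length),
        List.ofFn (fun k : Fin m => l.get (Fin.cast h k)) = l := by
      rintro m rfl
      simp
    have hmem : ∀ x, x ∈ D n ↔ x ∈ l := by
      intro x
      rw [← h2, List.mem_toFinset]
    let T : {x // x ∈ D n} ≃ Fin (n ^ 2 - 2) :=
      ((finCongr hlen).trans ((List.Nodup.getEquiv l h1).trans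
        (Equiv.subtypeEquivRight fun x => (hmem x).symm))).symm
    have hT : ∀ k, ((T.symm k : {x // x ∈ D n}) : ℕ × ℕ) = l.get (Fin.cast hlen k) := by
      intro k
      rfl
    have hlt : ∀ x y : {x // x ∈ D n}, x.1 ≤ y.1 → x ≠ y → T x < T y := by
      intro x y hxy hne
      by_contra hcon
      rw [not_lt] at hcon
      rcases hcon.eq_or_lt with h4 | h4
      · exact hne (T.injective h4).symm
      · have e1 := hT (T x)
        have e2 := hT (T y)
        rw [Equiv.symm_apply_apply] at e1 e2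
        have h5 := List.pairwise_iff_get.1 h3 (Fin.cast hlen (T y)) (Fin.cast hlen (T x)) h4
        rw [← e1, ← e2] at h5
        exact h5 hxy
    refine ⟨⟨T, ?_, ?_⟩, ?_⟩
    · intro i j h h'
      apply hlt
      · exact ⟨le_rfl, Nat.le_succ _⟩
      · intro h4
        have := congrArg (fun z : {x // x ∈ D n} => z.1.2) h4
        simp at this
    · intro i j h h'
      apply hlt
      · exact ⟨Nat.le_succ _, le_rfl⟩
      · intro h4
        have := congrArg (fun z : {x // x ∈ D n} => z.1.1) h4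
        simp at this
    · apply Subtype.ext
      simp only [hT]
      exact key _ hlen

end Sq
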