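import Pool.Agent.R666.Sq.PieceP9

namespace Sq

open Finset

namespace P10

lemma prodF (k : ℕ) : (∏ j ∈ range (k + 1), (2 * k - j).factorial) * F k = F (2 * k + 1) := by
  have e1 : 2 * k + 1 = k + (k + 1) := by ring
  rw [F, F, e1, Finset.prod_range_add (fun i => i.factorial) k (k + 1), mul_comm]
  congr 1
  rw [← Finset.prod_range_reflect]
  refine Finset.prod_congr rfl fun j hj => ?_
  have := Finset.mem_range.1 hj
  congr 1
  omega

lemma F_succ (k : ℕ) : F (k + 1) = F k * k.factorial := by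
  rw [F, Finset.prod_range_succ, F]

lemma e_one (S : Finset (ℕ × ℕ)) (x : ℕ × ℕ) (hS : S.Nonempty)
    (h : S.filter (fun x => ∀ y ∈ S, x ≤ y → y = x) = {x}) : e S = e (S.erase x) := by
  rw [e_max S hS, h, Finset.sum_singleton]

lemma e_D2 : e (D 2) = 1 := by
  rw [e_one (D 2) (2, 2) (by decide) (by decide), e_one ((D 2).erase (2, 2)) (2, 1) (by decide)
    (by decide)]
  have h5 : ((D 2).erase (2, 2)).erase (2, 1) = ∅ := by decide
  rw [h5, e_empty]

end P10

theorem final (n : ℕ) (hn : 2 ≤ n) :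
    (Nat.card (SYT n) : ℚ) =
      6 * ((n ^ 2 - 2).factorial : ℚ) * ((3 * n - 4).factorial : ℚ) ^ 2 * (F (n - 2) : ℚ) ^ 2 /
        ((6 * n - 8).factorial * (2 * n - 2).factorial * ((n - 2).factorial : ℚ) ^ 2 *
          F (2 * n - 4)) := by
  rw [card_SYT n hn]
  obtain ⟨m, rfl⟩ : ∃ m, n = m + 2 := ⟨n - 2, by omega⟩
  rcases Nat.eq_zero_or_pos m with rfl | hm
  · rw [P10.e_D2]
    norm_num [F, Nat.factorial]
  · have hm1 : 1 ≤ m := hm
    rw [e_D m hm1]
    push_cast
    rw [Finset.sum_congr rfl (fun lam hlam => term_eq m hm1 lam (by simpa using hlam)),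
      ← Finset.sum_div]
    rw [sum_shift m hm1 (fun l => T l), sum_T' m hm1]
    obtain ⟨k, rfl⟩ : ∃ k, m = k + 1 := ⟨m - 1, by omega⟩
    have e1 : 3 * (k + 1 + 2) - 4 = 3 * k + 5 := by omega
    have e2 : 6 * (k + 1 + 2) - 8 = 6 * k + 10 := by omega
    have e3 : 2 * (k + 1 + 2) - 2 = 2 * k + 4 := by omega
    have e4 : 2 * (k + 1 + 2) - 4 = 2 * k + 2 := by omega
    have e5 : k + 1 + 2 - 2 = k + 1 := by omega
    have e6 : 2 * (k + 1) - 1 = 2 * k + 1 := by omega
    have e7 : 2 * (k + 1) + 1 = 2 * k + 3 := by omega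
    have e8 : 3 * (k + 1) + 2 = 3 * k + 5 := by omega
    have e9 : 6 * (k + 1) + 1 = 6 * k + 7 := by omega
    have e10 : 3 * (k + 1) = 3 * k + 3 := by omega
    have e11 : ∀ j, 2 * (k + 1) - 2 - j = 2 * k - j := fun j => by omega
    rw [e1, e2, e3, e4, e6, e7, e8, e9, e10]
    simp only [e11]
    have hP := P10.prodF k
    have hF2 : F (2 * k + 2) = F (2 * k + 1) * (2 * k + 1).factorial := P10.F_succ _
    have hF1 : F (k + 1) = F k * k.factorial := P10.F_succ _
    have hF3 : (∏ j ∈ range (k + 1), (j.factorial : ℚ)) = F (k + 1) := by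
      rw [F]; push_cast; rfl
    rw [Finset.prod_div_distrib, hF3, hF2, ← hP, hF1]
    have f1 : ((3 * k + 5).factorial : ℚ) = (3 * k + 5) * (3 * k + 4) * (3 * k + 3).factorial := by
      rw [Nat.factorial_succ, Nat.factorial_succ]; push_cast; ring
    have f2 : ((6 * k + 10).factorial : ℚ) = (6 * k + 10) * (6 * k + 9) * (6 * k + 8) *
        (6 * k + 7).factorial := by
      rw [Nat.factorial_succ, Nat.factorial_succ, Nat.factorial_succ]; push_cast; ring
    have f3 : ((2 * k + 4).factorial : ℚ) = (2 * k + 4) * (2 * k + 3).factorial := by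
      rw [Nat.factorial_succ]; push_cast; ring
    have f4 : ((k + 1 + 1).factorial : ℚ) = (k + 2) * (k + 1) * k.factorial := by
      rw [Nat.factorial_succ, Nat.factorial_succ]; push_cast; ring
    have f5 : ((k + 1).factorial : ℚ) = (k + 1) * k.factorial := by
      rw [Nat.factorial_succ]; push_cast; ring
    have hFk : (F k : ℚ) ≠ 0 := by
      have : F k ≠ 0 := by rw [F]; positivity
      exact_mod_cast this
    rw [f1, f2, f3, f4, f5]
    push_cast
    have hprod : (∏ j ∈ range (k + 1), ((2 * k - j).factorial : ℚ)) ≠ 0 := by positivity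
    generalize (∏ j ∈ range (k + 1), ((2 * k - j).factorial : ℚ)) = PP at *
    have g1 : ((6 * k + 7).factorial : ℚ) ≠ 0 := by positivity
    have g2 : ((3 * k + 3).factorial : ℚ) ≠ 0 := by positivity
    have g3 : ((2 * k + 3).factorial : ℚ) ≠ 0 := by positivity
    have g4 : ((2 * k + 1).factorial : ℚ) ≠ 0 := by positivity
    have g5 : (k.factorial : ℚ) ≠ 0 := by positivity
    have g6 : (((k + 1 + 2) ^ 2 - 2).factorial : ℚ) ≠ 0 := by positivity
    generalize (((k + 1 + 2) ^ 2 - 2).factorial : ℚ) = XX at *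
    field_simp
    ring

end Sq
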