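import Pool.Agent.R666.Sq.All

namespace Sq

open Finset

namespace P9

lemma Vd_eq_det {m : ℕ} (x : Fin m → ℚ) : Vd x = (Matrix.vandermonde fun i => - x i).det := by
  rw [Matrix.det_vandermonde, Vd]
  refine Finset.prod_congr rfl fun i _ => Finset.prod_congr rfl fun j _ => ?_
  ring

lemma Vd_perm {m : ℕ} (x : Fin m → ℚ) (σ : Equiv.Perm (Fin m)) : (Vd (x ∘ σ)) ^ 2 = Vd x ^ 2 := by
  have : (Matrix.vandermonde fun i => - (x ∘ σ) i) =
      (Matrix.vandermonde fun i => - x i).submatrix σ id := by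
    ext i j; simp [Matrix.vandermonde]
  rw [Vd_eq_det, Vd_eq_det, this, Matrix.det_permute, mul_pow]
  have : ((Equiv.Perm.sign σ : ℤ) : ℚ) ^ 2 = 1 := by
    rcases Int.units_eq_one_or (Equiv.Perm.sign σ) with h | h <;> rw [h] <;> simp
  rw [this, one_mul]

lemma Vd_noninj {m : ℕ} (x : Fin m → ℚ) (h : ¬ Function.Injective x) : Vd x = 0 := by
  rw [Vd_eq_det, Matrix.det_vandermonde_eq_zero_iff]
  simp only [Function.Injective, not_forall] at h
  obtain ⟨i, j, hij, hne⟩ := h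
  exact ⟨i, j, by rw [hij], hne⟩

/-- the summand of `kraw_det`. -/
noncomputable def g (m : ℕ) (x : ℚ) (l : Fin m → Fin (2 * m - 1)) : ℚ :=
  (∏ i, W (2 * m - 2) x (l i) * (1 / ((2 * m + 2 : ℚ) - (l i : ℕ)))) *
    (Vd fun i => ((l i : ℕ) : ℚ)) ^ 2

lemma stepA (m : ℕ) (hm : 1 ≤ m) (x : ℚ) :
    ∑ l : Fin m → Fin (2 * m - 1) with StrictAnti l, g m x l =
      (∏ j ∈ range m, (((2 * m - 2).descFactorial j : ℚ) * j.factorial)) *
        (x * (1 - x)) ^ (m.choose 2) *
        ∑ i ∈ range m, W (m - 1) x i * ((m + 2 - i).factorial : ℚ) /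
          ((2 * m + 2 - i).factorial : ℚ) := by
  have h1 := kraw_det m hm x
  have h2 := sum_strictAnti (g m x) (by
      intro l σ
      rw [g, g]
      congr 1
      · exact Equiv.prod_comp σ (fun i => W (2 * m - 2) x (l i) *
          (1 / ((2 * m + 2 : ℚ) - (l i : ℕ))))
      · exact Vd_perm (fun i => ((l i : ℕ) : ℚ)) σ) (by
      intro l hl
      rw [g, Vd_noninj]
      · ring
      · intro h
        apply hl
        intro i j hij
        apply h
        simp [hij])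
  have hf : (m.factorial : ℚ) ≠ 0 := by positivity
  apply mul_left_cancel₀ hf
  rw [← h2]
  unfold g
  rw [h1]
  ring

/-- coefficients -/
noncomputable def cl (m : ℕ) (l : Fin m → Fin (2 * m - 1)) : ℚ :=
  (∏ i, ((2 * m - 2).choose (l i) : ℚ) * (1 / ((2 * m + 2 : ℚ) - (l i : ℕ)))) *
    (Vd fun i => ((l i : ℕ) : ℚ)) ^ 2

lemma g_eq (m : ℕ) (x : ℚ) (l : Fin m → Fin (2 * m - 1)) :
    g m x l = cl m l * (x ^ (∑ i, (l i : ℕ)) * (1 - x) ^ (∑ i, (2 * m - 2 - (l i : ℕ)))) := by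
  rw [g, cl]
  simp only [W]
  rw [← Finset.prod_pow_eq_pow_sum, ← Finset.prod_pow_eq_pow_sum]
  have : (∏ i, ((2 * m - 2).choose (l i) : ℚ) * x ^ (l i : ℕ) * (1 - x) ^ (2 * m - 2 - (l i : ℕ)) *
      (1 / ((2 * m + 2 : ℚ) - (l i : ℕ)))) =
      (∏ i, ((2 * m - 2).choose (l i) : ℚ) * (1 / ((2 * m + 2 : ℚ) - (l i : ℕ)))) *
      ((∏ i, x ^ (l i : ℕ)) * ∏ i, (1 - x) ^ (2 * m - 2 - (l i : ℕ))) := by
    rw [← Finset.prod_mul_distrib, ← Finset.prod_mul_distrib]
    refine Finset.prod_congr rfl fun i _ => ?_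
    ring
  rw [this]; ring

lemma lower {m K : ℕ} (l : Fin m → Fin K) (h : StrictAnti l) (i : Fin m) :
    m - 1 - (i : ℕ) ≤ (l i : ℕ) := by
  obtain ⟨d, hd⟩ : ∃ d, d = m - 1 - (i : ℕ) := ⟨_, rfl⟩
  rw [← hd]
  induction d generalizing i with
  | zero => exact Nat.zero_le _
  | succ d ih =>
    have hi : (i : ℕ) + 1 < m := by omega
    have h1 := ih ⟨i + 1, hi⟩ (by simp only; omega)
    have h2 : l ⟨i + 1, hi⟩ < l i := h (by simp [Fin.lt_def])
    have h3 : ((l ⟨i + 1, hi⟩ : Fin K) : ℕ) < (l i : ℕ) := h2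
    omega

lemma upper {m K : ℕ} (l : Fin m → Fin K) (h : StrictAnti l) (i : Fin m) :
    (l i : ℕ) + i + 1 ≤ K := by
  obtain ⟨d, hd⟩ : ∃ d, d = (i : ℕ) := ⟨_, rfl⟩
  induction d generalizing i with
  | zero => have := (l i).2; omega
  | succ d ih =>
    have hi : d < m := by omega
    have h1 := ih ⟨d, hi⟩ rfl
    have h2 : l i < l ⟨d, hi⟩ := h (by simp [Fin.lt_def]; omega)
    have h3 : ((l i : Fin K) : ℕ) < (l ⟨d, hi⟩ : ℕ) := h2
    simp only at h1
    omega

lemma sum_i (m : ℕ) : ∑ i : Fin m, (i : ℕ) = m.choose 2 := by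
  rw [Fin.sum_univ_eq_sum_range (fun i => i) m, Finset.sum_range_id, Nat.choose_two_right]

lemma sum_rev (m : ℕ) : ∑ i : Fin m, (m - 1 - (i : ℕ)) = m.choose 2 := by
  rw [Fin.sum_univ_eq_sum_range (fun i => m - 1 - i) m, Finset.sum_range_reflect (fun i => i) m,
    Finset.sum_range_id, Nat.choose_two_right]

lemma low {m K : ℕ} (l : Fin m → Fin K) (h : StrictAnti l) :
    m.choose 2 ≤ ∑ i, (l i : ℕ) := by
  rw [← sum_rev]
  exact Finset.sum_le_sum fun i _ => lower l h i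

lemma upp {m : ℕ} (l : Fin m → Fin (2 * m - 1)) (h : StrictAnti l) :
    m.choose 2 ≤ ∑ i, (2 * m - 2 - (l i : ℕ)) := by
  rw [← sum_i]
  refine Finset.sum_le_sum fun i _ => ?_
  have := upper l h i
  omega

lemma tot {m : ℕ} (l : Fin m → Fin (2 * m - 1)) :
    ∑ i, (l i : ℕ) + ∑ i, (2 * m - 2 - (l i : ℕ)) = m * (2 * m - 2) := by
  rw [← Finset.sum_add_distrib]
  have : ∀ i : Fin m, (l i : ℕ) + (2 * m - 2 - (l i : ℕ)) = 2 * m - 2 := fun i => by
    have := (l i).2; omega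
  simp only [this, Finset.sum_const, Finset.card_univ, Fintype.card_fin, smul_eq_mul]

section poly

open Polynomial

/-- the Beta functional. -/
noncomputable def Lam : Polynomial ℚ →ₗ[ℚ] ℚ :=
  (Polynomial.basisMonomials ℚ).constr ℚ fun k => 1 / ((k : ℚ) + 1)

lemma Lam_X (k : ℕ) : Lam (X ^ k) = 1 / ((k : ℚ) + 1) := by
  have : (X : Polynomial ℚ) ^ k = Polynomial.basisMonomials ℚ k := by
    rw [Polynomial.coe_basisMonomials, Polynomial.X_pow_eq_monomial]
  rw [this, Lam, Module.Basis.constr_basis]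

lemma Lam_beta (a b : ℕ) : Lam (X ^ a * (1 - X) ^ b) =
    (a.factorial : ℚ) * b.factorial / (a + b + 1).factorial := by
  induction b generalizing a with
  | zero =>
    rw [pow_zero, mul_one, Lam_X, Nat.factorial_succ]
    have : (a.factorial : ℚ) ≠ 0 := by positivity
    push_cast
    simp only [Nat.factorial_zero, Nat.cast_one, mul_one, add_zero]
    field_simp
  | succ b ih =>
    have h1 : (X : Polynomial ℚ) ^ a * (1 - X) ^ (b + 1) =
        X ^ a * (1 - X) ^ b - X ^ (a + 1) * (1 - X) ^ b := by ring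
    rw [h1, map_sub, ih, ih]
    have e1 : a + 1 + b + 1 = (a + b + 1) + 1 := by ring
    have e2 : a + (b + 1) + 1 = (a + b + 1) + 1 := by ring
    rw [e1, e2, Nat.factorial_succ (a + b + 1), Nat.factorial_succ a, Nat.factorial_succ b]
    have h2 : ((a + b + 1).factorial : ℚ) ≠ 0 := by positivity
    push_cast
    field_simp
    ring

lemma Lam_C (a : ℚ) (p : Polynomial ℚ) : Lam (C a * p) = a * Lam p := by
  rw [← Polynomial.smul_eq_C_mul, map_smul, smul_eq_mul]

lemma stepB (m : ℕ) (hm : 1 ≤ m) :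
    ∑ l : Fin m → Fin (2 * m - 1) with StrictAnti l, C (cl m l) *
      ((X : Polynomial ℚ) ^ (∑ i, (l i : ℕ) - m.choose 2) *
        (1 - X) ^ (∑ i, (2 * m - 2 - (l i : ℕ)) - m.choose 2)) =
    C (∏ j ∈ range m, (((2 * m - 2).descFactorial j : ℚ) * j.factorial)) *
      ∑ i ∈ range m, C (((m - 1).choose i : ℚ) * (m + 2 - i).factorial /
        (2 * m + 2 - i).factorial) * (X ^ i * (1 - X) ^ (m - 1 - i)) := by
  have hX : ((X : Polynomial ℚ) * (1 - X)) ^ (m.choose 2) ≠ 0 := by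
    apply pow_ne_zero
    apply mul_ne_zero X_ne_zero
    intro h
    have := congrArg (Polynomial.eval 0) h
    simp at this
  apply mul_left_cancel₀ hX
  apply Polynomial.funext
  intro x
  have hA := stepA m hm x
  simp only [eval_mul, eval_pow, eval_X, eval_sub, eval_one, eval_finsetSum, eval_C]
  rw [Finset.mul_sum]
  have h1 : ∀ l ∈ (univ : Finset (Fin m → Fin (2 * m - 1))).filter (fun l => StrictAnti l),
      (x * (1 - x)) ^ (m.choose 2) * (cl m l * (x ^ (∑ i, (l i : ℕ) - m.choose 2) *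
        (1 - x) ^ (∑ i, (2 * m - 2 - (l i : ℕ)) - m.choose 2))) = g m x l := by
    intro l hl
    have hl' : StrictAnti l := by simpa using hl
    rw [g_eq]
    have e1 : ∑ i, (l i : ℕ) = m.choose 2 + (∑ i, (l i : ℕ) - m.choose 2) := by
      have := low l hl'; omega
    have e2 : ∑ i, (2 * m - 2 - (l i : ℕ)) = m.choose 2 +
        (∑ i, (2 * m - 2 - (l i : ℕ)) - m.choose 2) := by
      have := upp l hl'; omega
    conv_rhs => rw [e1, e2]
    rw [pow_add, pow_add, mul_pow]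
    ring
  rw [Finset.sum_congr rfl h1, hA]
  rw [mul_comm (∏ j ∈ range m, (((2 * m - 2).descFactorial j : ℚ) * j.factorial)), mul_assoc]
  congr 2
  refine Finset.sum_congr rfl fun i _ => ?_
  rw [W]; ring

lemma two_choose (m : ℕ) (hm : 1 ≤ m) : 2 * m.choose 2 = m * (m - 1) := by
  rw [Nat.choose_two_right, Nat.mul_div_cancel']
  obtain ⟨k, rfl⟩ : ∃ k, m = k + 1 := ⟨m - 1, by omega⟩
  have e : k + 1 - 1 = k := by omega
  rw [e, mul_comm]
  exact (Nat.even_mul_succ_self k).two_dvd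

lemma cl_T (m : ℕ) (hm : 1 ≤ m) (l : Fin m → Fin (2 * m - 1)) (hl : StrictAnti l) :
    cl m l * Lam (X ^ (2 * m - 1 + (∑ i, (l i : ℕ) - m.choose 2)) *
        (1 - X) ^ (3 * m + 2 + (∑ i, (2 * m - 2 - (l i : ℕ)) - m.choose 2))) =
      ((2 * m - 2).factorial : ℚ) ^ m / (((m + 2) ^ 2 - 2).factorial : ℚ) *
        T (fun i => (l i : ℕ)) := by
  have hlow := low l hl
  have hupp := upp l hl
  have htot := tot l
  have hc := two_choose m hm
  rw [Lam_beta]
  have e1 : 2 * m - 1 + (∑ i, (l i : ℕ) - m.choose 2) = 2 * m - 1 + ∑ i, (l i : ℕ) - m.choose 2 := by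
    omega
  have e2 : 3 * m + 2 + (∑ i, (2 * m - 2 - (l i : ℕ)) - m.choose 2) =
      m ^ 2 + 2 * m + 2 + m.choose 2 - ∑ i, (l i : ℕ) := by
    obtain ⟨k, rfl⟩ : ∃ k, m = k + 1 := ⟨m - 1, by omega⟩
    have a1 : (k + 1) * (2 * (k + 1) - 2) = 2 * k ^ 2 + 2 * k := by
      have : 2 * (k + 1) - 2 = 2 * k := by omega
      rw [this]; ring
    have a2 : (k + 1) * (k + 1 - 1) = k ^ 2 + k := by
      have : k + 1 - 1 = k := by omega
      rw [this]; ring
    have a3 : (k + 1) ^ 2 = k ^ 2 + 2 * k + 1 := by ring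
    rw [a1] at htot
    rw [a2] at hc
    rw [a3]
    omega
  have e3 : 2 * m - 1 + (∑ i, (l i : ℕ) - m.choose 2) +
      (3 * m + 2 + (∑ i, (2 * m - 2 - (l i : ℕ)) - m.choose 2)) + 1 = (m + 2) ^ 2 - 2 := by
    obtain ⟨k, rfl⟩ : ∃ k, m = k + 1 := ⟨m - 1, by omega⟩
    have a1 : (k + 1) * (2 * (k + 1) - 2) = 2 * k ^ 2 + 2 * k := by
      have : 2 * (k + 1) - 2 = 2 * k := by omega
      rw [this]; ring
    have a2 : (k + 1) * (k + 1 - 1) = k ^ 2 + k := by
      have : k + 1 - 1 = k := by omega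
      rw [this]; ring
    have a3 : (k + 1 + 2) ^ 2 = k ^ 2 + 6 * k + 9 := by ring
    rw [a1] at htot
    rw [a2] at hc
    rw [a3]
    omega
  rw [e3, e1, e2, T, cl]
  have hprod : (∏ i, (((2 * m - 2).choose (l i) : ℕ) : ℚ) * (1 / ((2 * m + 2 : ℚ) - (l i : ℕ)))) =
      ((2 * m - 2).factorial : ℚ) ^ m * ∏ i : Fin m, (1 / (((l i : ℕ)).factorial *
        (2 * m - 2 - (l i : ℕ)).factorial * (2 * m + 2 - (l i : ℕ) : ℕ)) : ℚ) := by
    have : ((2 * m - 2).factorial : ℚ) ^ m = ∏ _i : Fin m, ((2 * m - 2).factorial : ℚ) := by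
      rw [Finset.prod_const, Finset.card_univ, Fintype.card_fin]
    rw [this, ← Finset.prod_mul_distrib]
    refine Finset.prod_congr rfl fun i _ => ?_
    have hi : (l i : ℕ) ≤ 2 * m - 2 := by have := (l i).2; omega
    have h1 := Nat.choose_mul_factorial_mul_factorial hi
    have h2 : (((2 * m - 2).choose (l i) : ℕ) : ℚ) * ((l i : ℕ)).factorial *
        (2 * m - 2 - (l i : ℕ)).factorial = (2 * m - 2).factorial := by exact_mod_cast h1
    have h3 : ((2 * m + 2 - (l i : ℕ) : ℕ) : ℚ) = (2 * m + 2 : ℚ) - (l i : ℕ) := by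
      rw [Nat.cast_sub (by omega)]; push_cast; ring
    have h4 : ((2 * m + 2 : ℚ) - (l i : ℕ)) ≠ 0 := by
      rw [← h3]
      have : (2 * m + 2 - (l i : ℕ)) ≠ 0 := by omega
      exact_mod_cast this
    have h5 : (((l i : ℕ)).factorial : ℚ) ≠ 0 := by positivity
    have h6 : ((2 * m - 2 - (l i : ℕ)).factorial : ℚ) ≠ 0 := by positivity
    rw [h3, ← h2]
    field_simp
  rw [hprod]
  ring

lemma stepC (m : ℕ) (hm : 1 ≤ m) :
    ((2 * m - 2).factorial : ℚ) ^ m / (((m + 2) ^ 2 - 2).factorial : ℚ) *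
      ∑ l : Fin m → Fin (2 * m - 1) with StrictAnti l, T (fun i => (l i : ℕ)) =
    (∏ j ∈ range m, (((2 * m - 2).descFactorial j : ℚ) * j.factorial)) *
      ∑ i ∈ range m, (((m - 1).choose i : ℚ) * (m + 2 - i).factorial /
        (2 * m + 2 - i).factorial) * (((2 * m - 1 + i).factorial : ℚ) *
          (4 * m + 1 - i).factorial / (6 * m + 1).factorial) := by
  have hB := congrArg (fun p => Lam ((X ^ (2 * m - 1) * (1 - X) ^ (3 * m + 2)) * p)) (stepB m hm)
  have hL : (X ^ (2 * m - 1) * (1 - X) ^ (3 * m + 2)) *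
      ∑ l : Fin m → Fin (2 * m - 1) with StrictAnti l, C (cl m l) *
      ((X : Polynomial ℚ) ^ (∑ i, (l i : ℕ) - m.choose 2) *
        (1 - X) ^ (∑ i, (2 * m - 2 - (l i : ℕ)) - m.choose 2)) =
      ∑ l : Fin m → Fin (2 * m - 1) with StrictAnti l, C (cl m l) *
      ((X : Polynomial ℚ) ^ (2 * m - 1 + (∑ i, (l i : ℕ) - m.choose 2)) *
        (1 - X) ^ (3 * m + 2 + (∑ i, (2 * m - 2 - (l i : ℕ)) - m.choose 2))) := by
    rw [Finset.mul_sum]
    refine Finset.sum_congr rfl fun l _ => ?_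
    rw [pow_add, pow_add]; ring
  have hR : (X ^ (2 * m - 1) * (1 - X) ^ (3 * m + 2)) *
      (C (∏ j ∈ range m, (((2 * m - 2).descFactorial j : ℚ) * j.factorial)) *
      ∑ i ∈ range m, C (((m - 1).choose i : ℚ) * (m + 2 - i).factorial /
        (2 * m + 2 - i).factorial) * (X ^ i * (1 - X) ^ (m - 1 - i))) =
      C (∏ j ∈ range m, (((2 * m - 2).descFactorial j : ℚ) * j.factorial)) *
      ∑ i ∈ range m, C (((m - 1).choose i : ℚ) * (m + 2 - i).factorial /
        (2 * m + 2 - i).factorial) * (X ^ (2 * m - 1 + i) * (1 - X) ^ (4 * m + 1 - i)) := by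
    rw [← mul_assoc, mul_comm (X ^ (2 * m - 1) * (1 - X) ^ (3 * m + 2)), mul_assoc]
    congr 1
    rw [Finset.mul_sum]
    refine Finset.sum_congr rfl fun i hi => ?_
    have : 4 * m + 1 - i = 3 * m + 2 + (m - 1 - i) := by
      have := Finset.mem_range.1 hi; omega
    rw [this, pow_add, pow_add]; ring
  rw [hL, hR, Lam_C, map_sum, map_sum] at hB
  simp only [Lam_C] at hB
  rw [Finset.sum_congr rfl (fun l hl => cl_T m hm l (by simpa using hl)), ← Finset.mul_sum] at hB
  rw [hB]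
  congr 1
  refine Finset.sum_congr rfl fun i hi => ?_
  have hi' := Finset.mem_range.1 hi
  rw [Lam_beta]
  have : 2 * m - 1 + i + (4 * m + 1 - i) + 1 = 6 * m + 1 := by omega
  rw [this]

end poly

end P9

theorem sum_T' (m : ℕ) (hm : 1 ≤ m) :
    ∑ l : Fin m → Fin (2 * m - 1) with StrictAnti l, T (fun i => (l i : ℕ)) =
      (((m + 2) ^ 2 - 2).factorial : ℚ) *
        (∏ j ∈ range m, ((j.factorial : ℚ) / (2 * m - 2 - j).factorial)) *
        ((3 * m).factorial * (3 * m + 2).factorial) /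
        (2 * (m + 1).factorial * (2 * m) * (2 * m + 1) * (6 * m + 1).factorial) := by
  have hC := P9.stepC m hm
  have hprod : (∏ j ∈ range m, (((2 * m - 2).descFactorial j : ℚ) * j.factorial)) =
      ((2 * m - 2).factorial : ℚ) ^ m *
        (∏ j ∈ range m, ((j.factorial : ℚ) / (2 * m - 2 - j).factorial)) := by
    have : ((2 * m - 2).factorial : ℚ) ^ m = ∏ _j ∈ range m, ((2 * m - 2).factorial : ℚ) := by
      rw [Finset.prod_const, Finset.card_range]
    rw [this, ← Finset.prod_mul_distrib]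
    refine Finset.prod_congr rfl fun j hj => ?_
    have hj' : j ≤ 2 * m - 2 := by have := Finset.mem_range.1 hj; omega
    have h1 := Nat.factorial_mul_descFactorial hj'
    have h2 : ((2 * m - 2 - j).factorial : ℚ) * ((2 * m - 2).descFactorial j : ℕ) =
        (2 * m - 2).factorial := by exact_mod_cast h1
    have h3 : ((2 * m - 2 - j).factorial : ℚ) ≠ 0 := by positivity
    rw [← h2]
    field_simp
  have hD : ∑ i ∈ range m, (((m - 1).choose i : ℚ) * (m + 2 - i).factorial /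
        (2 * m + 2 - i).factorial) * (((2 * m - 1 + i).factorial : ℚ) *
          (4 * m + 1 - i).factorial / (6 * m + 1).factorial) =
      ((3 * m).factorial * (3 * m + 2).factorial) /
        (2 * (m + 1).factorial * (2 * m) * (2 * m + 1)) / (6 * m + 1).factorial := by
    obtain ⟨k, rfl⟩ : ∃ k, m = k + 1 := ⟨m - 1, by omega⟩
    have hd := dixon k (2 * k + 1)
    have e1 : 2 * k + 1 + k + 2 = 3 * (k + 1) := by ring
    have e2 : 2 * k + 1 + k + 4 = 3 * (k + 1) + 2 := by ring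
    rw [e1, e2] at hd
    rw [← Finset.sum_range_reflect]
    have h1 : ∀ i ∈ range (k + 1), (((k + 1 - 1).choose (k + 1 - 1 - i) : ℚ) *
        (k + 1 + 2 - (k + 1 - 1 - i)).factorial /
        (2 * (k + 1) + 2 - (k + 1 - 1 - i)).factorial) *
        (((2 * (k + 1) - 1 + (k + 1 - 1 - i)).factorial : ℚ) *
          (4 * (k + 1) + 1 - (k + 1 - 1 - i)).factorial / (6 * (k + 1) + 1).factorial) =
        (k.choose i : ℚ) * (2 * k + 1 + k - i).factorial * (3 * (k + 1) + 2 + i).factorial *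
        (i + 3).factorial / (k + 4 + i).factorial / (6 * (k + 1) + 1).factorial := by
      intro i hi
      have hi' : i ≤ k := by have := Finset.mem_range.1 hi; omega
      have a1 : k + 1 - 1 - i = k - i := by omega
      have a2 : k + 1 - 1 = k := by omega
      have a3 : k + 1 + 2 - (k - i) = i + 3 := by omega
      have a4 : 2 * (k + 1) + 2 - (k - i) = k + 4 + i := by omega
      have a5 : 2 * (k + 1) - 1 + (k - i) = 2 * k + 1 + k - i := by omega
      have a6 : 4 * (k + 1) + 1 - (k - i) = 3 * (k + 1) + 2 + i := by omega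
      rw [a1, a2, a3, a4, a5, a6, Nat.choose_symm hi']
      ring
    rw [Finset.sum_congr rfl h1, ← Finset.sum_div, hd]
    congr 1
    have b1 : k + 2 = k + 1 + 1 := by ring
    rw [b1]
    push_cast
    congr 1
    ring
  rw [hprod, hD] at hC
  have h1 : ((2 * m - 2).factorial : ℚ) ^ m ≠ 0 := by positivity
  have h2 : (((m + 2) ^ 2 - 2).factorial : ℚ) ≠ 0 := by positivity
  have h3 : ((2 * m - 2).factorial : ℚ) ^ m / (((m + 2) ^ 2 - 2).factorial : ℚ) ≠ 0 :=
    div_ne_zero h1 h2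
  apply mul_left_cancel₀ h3
  rw [hC]
  have h4 : ((6 * m + 1).factorial : ℚ) ≠ 0 := by positivity
  have h5 : ((m + 1).factorial : ℚ) ≠ 0 := by positivity
  have h6 : (m : ℚ) ≠ 0 := by positivity
  generalize ((2 * m - 2).factorial : ℚ) ^ m = A1 at *
  generalize (((m + 2) ^ 2 - 2).factorial : ℚ) = A2 at *
  generalize (∏ j ∈ range m, ((j.factorial : ℚ) / (2 * m - 2 - j).factorial)) = A3 at *
  field_simp

end Sq
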